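import Mathlib

/-!
# Generators of the group of relations (helper142)
-/

set_option autoImplicit false
set_option linter.unusedSectionVars false

namespace Pool.Agent.Run7.h142.GT

open Module

section

variable {J : Type} [Fintype J] {V : Type*} [AddCommGroup V] [Module ℚ V] (v : J → V)

/-- the group of the integral relations -/
def relSub : Submodule ℤ (J → ℤ) :=
  LinearMap.ker ((Fintype.linearCombination ℤ v : (J → ℤ) →ₗ[ℤ] V))

/-- the cast -/
def castHom (J : Type) : (J → ℤ) →ₗ[ℤ] (J → ℚ) where
  toFun c j := (c j : ℚ)
  map_add' a b := by
    funext j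
    simp
  map_smul' a b := by
    funext j
    simp

theorem castHom_injective : Function.Injective (castHom J) := by
  intro a b h
  funext j
  have := congrFun h j
  change (a j : ℚ) = (b j : ℚ) at this
  exact_mod_cast this

theorem comb_cast (c : J → ℤ) : Fintype.linearCombination ℚ v (castHom J c) =
    Fintype.linearCombination ℤ v c := by
  rw [Fintype.linearCombination_apply, Fintype.linearCombination_apply]
  refine Finset.sum_congr rfl fun j _ => ?_
  change ((c j : ℤ) : ℚ) • v j = c j • v j
  exact Int.cast_smul_eq_zsmul ℚ (c j) (v j)

theorem exists_clear (c : J → ℚ) : ∃ (N : ℕ) (b : J → ℤ), 0 < N ∧ castHom J b = (N : ℚ) • c := by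
  classical
  refine ⟨∏ j, (c j).den, fun j => (c j).num * ∏ i ∈ Finset.univ.erase j, ((c i).den : ℤ),
    Finset.prod_pos fun j _ => (c j).den_pos, ?_⟩
  funext j
  change (((c j).num * ∏ i ∈ Finset.univ.erase j, ((c i).den : ℤ) : ℤ) : ℚ) =
    ((∏ j, (c j).den : ℕ) : ℚ) * c j
  rw [← Finset.mul_prod_erase Finset.univ (fun i => (c i).den) (Finset.mem_univ j)]
  push_cast
  have h := Rat.mul_den_eq_num (c j)
  rw [mul_comm ((c j).den : ℚ) _, mul_assoc, mul_comm ((c j).den : ℚ) (c j), h]
  ring

/-- **The number of generators.** -/
theorem exists_gens : ∃ B : Finset (J → ℤ),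
    AddSubgroup.closure (B : Set (J → ℤ)) = (relSub v).toAddSubgroup ∧
    B.card + finrank ℚ (Submodule.span ℚ (Set.range v)) = Fintype.card J := by
  classical
  let b := Module.Free.chooseBasis ℤ (relSub v)
  let g : Module.Free.ChooseBasisIndex ℤ (relSub v) → (J → ℤ) := fun i => (b i : J → ℤ)
  have hginj : Function.Injective g := Subtype.coe_injective.comp b.injective
  have hspan : Submodule.span ℤ (Set.range g) = relSub v := by
    have h1 : Set.range g = (relSub v).subtype '' Set.range b := by
      rw [← Set.range_comp]
      rfl
    rw [h1, Submodule.span_image, b.span_eq, Submodule.map_top, Submodule.range_subtype]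
  refine ⟨Finset.univ.map ⟨g, hginj⟩, ?_, ?_⟩
  · have h1 : ((Finset.univ.map ⟨g, hginj⟩ : Finset (J → ℤ)) : Set (J → ℤ)) = Set.range g := by
      rw [Finset.coe_map, Finset.coe_univ, Set.image_univ]
      rfl
    rw [h1]
    have h2 := congrArg Submodule.toAddSubgroup hspan
    rw [Submodule.span_int_eq_addSubgroupClosure] at h2
    exact h2
  · rw [Finset.card_map, Finset.card_univ]
    let F : (J → ℚ) →ₗ[ℚ] V := Fintype.linearCombination ℚ v
    have hli : LinearIndependent ℚ (fun i => castHom J (g i)) := by
      rw [← LinearIndependent.iff_fractionRing (R := ℤ) (K := ℚ)]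
      have h1 : LinearIndependent ℤ g := b.linearIndependent.map' (relSub v).subtype
        (Submodule.ker_subtype _)
      exact h1.map' (castHom J) (LinearMap.ker_eq_bot.2 castHom_injective)
    have hker : Submodule.span ℚ (Set.range fun i => castHom J (g i)) = LinearMap.ker F := by
      refine le_antisymm (Submodule.span_le.2 ?_) fun c hc => ?_
      · rintro _ ⟨i, rfl⟩
        change F (castHom J (g i)) = 0
        rw [show F (castHom J (g i)) = _ from comb_cast v (g i)]
        exact (b i).2
      · obtain ⟨N, a, hN, ha⟩ := exists_clear c
        have h1 : a ∈ relSub v := by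
          change Fintype.linearCombination ℤ v a = 0
          rw [← comb_cast, ha, map_smul, show Fintype.linearCombination ℚ v c = 0 from hc,
            smul_zero]
        have h2 : castHom J a ∈ Submodule.span ℚ (Set.range fun i => castHom J (g i)) := by
          rw [← hspan] at h1
          clear ha
          induction h1 using Submodule.span_induction with
          | mem x hx =>
            obtain ⟨i, rfl⟩ := hx
            exact Submodule.subset_span ⟨i, rfl⟩
          | zero =>
            rw [map_zero]
            exact Submodule.zero_mem _
          | add x y _ _ hx hy =>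
            rw [map_add]
            exact Submodule.add_mem _ hx hy
          | smul n x _ hx =>
            rw [map_smul]
            exact Submodule.smul_of_tower_mem _ n hx
        rw [ha] at h2
        have hN' : (N : ℚ) ≠ 0 := Nat.cast_ne_zero.2 hN.ne'
        exact (Submodule.smul_mem_iff _ hN').1 h2
    have h1 : Fintype.card (Module.Free.ChooseBasisIndex ℤ (relSub v)) =
        finrank ℚ (LinearMap.ker F) := by
      rw [← hker, finrank_span_eq_card hli]
    have h2 : Submodule.span ℚ (Set.range v) = LinearMap.range F :=
      (Fintype.range_linearCombination ℚ v).symm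
    rw [h1, h2, add_comm, LinearMap.finrank_range_add_finrank_ker, finrank_fintype_fun_eq_card]

end

end Pool.Agent.Run7.h142.GT
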