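import Pool.Agent.Run7.h142.GT.DefsRank
import Pool.Agent.Run7.h142.GT.Rank

/-!
# Generators of the group of relations, and the parity of the relations (helper142)
-/

set_option autoImplicit false
set_option linter.unusedSectionVars false

universe u v

namespace Pool.Agent.Run7.h142.GT

variable {p : ℕ} [Fact p.Prime] {κ : Type} {E : κ → Type} [∀ k, Field (E k)]
    {s : ℕ} {f : Fin s → κ} {α : ∀ j, E (f j)} {n : Fin s → ℕ}

/-- extension by zero -/
noncomputable def ext0 (f : Fin s → κ) (k : κ) : ({j // f j = k} → ℤ) →+ (Fin s → ℤ) := by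
  classical
  exact
  { toFun := fun c j => if h : f j = k then c ⟨j, h⟩ else 0
    map_zero' := by
      funext j
      by_cases h : f j = k
      · simp [h]
      · simp [h]
    map_add' := fun a b => by
      funext j
      by_cases h : f j = k
      · simp [h]
      · simp [h] }

theorem ext0_mem (k : κ) (c : {j // f j = k} → ℤ) (j : {j // f j = k}) :
    ext0 f k c j.1 = c j := by
  classical
  change (if h : f j.1 = k then c ⟨j.1, h⟩ else 0) = c j
  rw [dif_pos j.2]

theorem ext0_not_mem (k : κ) (c : {j // f j = k} → ℤ) (j : Fin s) (hj : f j ≠ k) :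
    ext0 f k c j = 0 := by
  classical
  change (if h : f j = k then c ⟨j, h⟩ else 0) = 0
  rw [dif_neg hj]

theorem ext0_injective (k : κ) : Function.Injective (ext0 f k) := by
  intro a b h
  funext j
  rw [← ext0_mem k a j, ← ext0_mem k b j, h]

open scoped Classical in
theorem sum_sub (k : κ) (g : Fin s → ℝ) (hg : ∀ j, f j ≠ k → g j = 0) :
    ∑ j : {j // f j = k}, g j.1 = ∑ j, g j := by
  classical
  rw [← Finset.sum_subtype (Finset.univ.filter fun j => f j = k) (fun j => by simp) g,
    Finset.sum_filter]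
  refine Finset.sum_congr rfl fun j _ => ?_
  by_cases h : f j = k
  · rw [if_pos h]
  · rw [if_neg h, hg j h]

open scoped Classical in
theorem map_ext0 (k : κ) :
    (relSub fun j : {j // f j = k} => slope p α n j.1).toAddSubgroup.map (ext0 f k) =
      relations p α n k := by
  classical
  have key : ∀ c : {j // f j = k} → ℤ,
      c ∈ (relSub fun j : {j // f j = k} => slope p α n j.1) ↔
      ∀ τ, ∑ j, ((ext0 f k c j : ℤ) : ℝ) * slope p α n j τ = 0 := by
    intro c
    change Fintype.linearCombination ℤ _ c = 0 ↔ _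
    rw [Fintype.linearCombination_apply, funext_iff]
    refine forall_congr' fun τ => ?_
    rw [Finset.sum_apply, ← sum_sub k _ fun j hj => by
      rw [ext0_not_mem k c j hj, Int.cast_zero, zero_mul]]
    refine Eq.congr (Finset.sum_congr rfl fun j _ => ?_) rfl
    rw [ext0_mem, Pi.smul_apply, zsmul_eq_mul]
  ext c
  constructor
  · rintro ⟨a, ha, rfl⟩
    exact ⟨fun j hj => ext0_not_mem k a j hj, (key a).1 ha⟩
  · rintro ⟨h1, h2⟩
    have h3 : ext0 f k (fun j => c j.1) = c := by
      funext j
      by_cases h : f j = k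
      · exact ext0_mem k (fun j => c j.1) ⟨j, h⟩
      · rw [ext0_not_mem k _ j h, h1 j h]
    refine ⟨fun j => c j.1, (key _).2 ?_, h3⟩
    rw [h3]
    exact h2

/-- **Generators.** -/
theorem exists_generators (p : ℕ) [Fact p.Prime] (α : ∀ j, E (f j)) (n : Fin s → ℕ) :
    ∃ B : κ → Finset (Fin s → ℤ),
      (∀ k, AddSubgroup.closure (B k : Set (Fin s → ℤ)) = relations p α n k) ∧
      ∀ k, (B k).card + slopeRank p α n k = Nat.card {j // f j = k} := by
  classical
  have h := fun k => exists_gens (fun j : {j // f j = k} => slope p α n j.1)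
  choose B hB1 hB2 using h
  refine ⟨fun k => (B k).map ⟨ext0 f k, ext0_injective k⟩, fun k => ?_, fun k => ?_⟩
  · rw [← map_ext0, ← hB1 k, AddMonoidHom.map_closure]
    congr 1
    rw [Finset.coe_map]
    rfl
  · rw [Finset.card_map, Nat.card_eq_fintype_card, ← hB2 k, slopeRank, rankOf,
      Set.image_eq_range]
    rfl

theorem even_of_all {d : Fin s → ℕ} (hd : ∀ j, Even (d j)) (c : Fin s → ℤ) :
    Even (degOf d c) := by
  unfold degOf
  exact Finset.even_sum _ fun j _ => (hd j).mul_left _

/-- **Parity.** -/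
theorem even_of_places {d : Fin s → ℕ} (h : HasIntegralPlaces p α d n) (k : κ) (c : Fin s → ℤ)
    (hc : c ∈ relations p α n k) : Even (degOf d c) := by
  obtain ⟨τ, hτ⟩ := h k
  have hp : (0 : ℝ) < Real.log p := Real.log_pos (by exact_mod_cast (Fact.out : p.Prime).one_lt)
  have h1 : ∀ j, ∃ m : ℤ, (c j : ℝ) * slope p α n j τ =
      ((2 * m + c j * d j : ℤ) : ℝ) * (Real.log p / 2) := by
    intro j
    by_cases hj : f j = k
    · obtain ⟨m, hm⟩ := hτ j hj
      refine ⟨c j * m, ?_⟩
      rw [hm]
      push_cast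
      ring
    · refine ⟨0, ?_⟩
      rw [hc.1 j hj]
      simp
  choose m hm using h1
  have h2 := hc.2 τ
  rw [Finset.sum_congr rfl fun j _ => hm j, ← Finset.sum_mul] at h2
  have h3 : ∑ j, ((2 * m j + c j * d j : ℤ) : ℝ) = 0 := by
    rcases mul_eq_zero.1 h2 with h3 | h3
    · exact h3
    · linarith
  have h4 : ∑ j, (2 * m j + c j * d j : ℤ) = 0 := by exact_mod_cast h3
  rw [Finset.sum_add_distrib, ← Finset.mul_sum] at h4
  have h5 : Even (∑ j, c j * (d j : ℤ)) := ⟨-∑ j, m j, by linarith⟩
  have h6 : ∀ j, Even (((c j).natAbs : ℤ) * (d j : ℤ) - c j * (d j : ℤ)) := by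
    intro j
    rw [← sub_mul]
    refine Even.mul_right ?_ _
    rcases abs_choice (c j) with h7 | h7
    · rw [Int.natCast_natAbs, h7, sub_self]
      exact Even.zero
    · rw [Int.natCast_natAbs, h7]
      exact ⟨-c j, by ring⟩
  have h7 : Even (∑ j, (((c j).natAbs : ℤ) * (d j : ℤ) - c j * (d j : ℤ))) :=
    Finset.even_sum _ fun j _ => h6 j
  rw [Finset.sum_sub_distrib] at h7
  have h8 : Even (∑ j, ((c j).natAbs : ℤ) * (d j : ℤ)) := by
    have := h7.add h5
    rwa [sub_add_cancel] at this
  unfold degOf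
  have h9 : ((∑ j, (c j).natAbs * d j : ℕ) : ℤ) = ∑ j, ((c j).natAbs : ℤ) * (d j : ℤ) := by
    push_cast
    rfl
  rw [← h9] at h8
  exact_mod_cast h8

end Pool.Agent.Run7.h142.GT
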