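import Pool.Agent.Run7.h142.GT.TateDefs
import Pool.Agent.Y138.TU.Main

/-!
# The Tate conjecture: comparison of the definitions (helper142)
-/

set_option autoImplicit false

open CategoryTheory AlgebraicGeometry

universe u v

namespace Pool.Agent.Run7.h142.GT

open Pool.Agent.H914 VarClass Obj WeilCohomology Pool.Agent.W534 Pool.Agent.Y138.TU

variable {k : Type u} [Field k] {𝒱 : VarClass k} {ops : CycleOps 𝒱}
  {W : WeilCohomology.{u, v} ops} {X : 𝒱.Obj} {p : ℕ} {Φ : FrobSystem W p}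

theorem iterate_eq {F M : Type*} [Field F] [AddCommGroup M] [Module F M] (f : M →ₗ[F] M) (c : F)
    (b : ℕ) (x : M) : (fun y => f y - c • y)^[b] x = ((f - c • (1 : Module.End F M)) ^ b) x := by
  rw [Module.End.pow_apply]
  rfl

theorem tateTo_iff {b m : ℕ} : TateTo Φ X b m ↔ TateK Φ X b m := by
  have hc : ∀ s, ((card Φ X s : W.K) ^ m) = (p : W.K) ^ (Φ.e X * s * m) := fun s => by
    rw [W534.card, Nat.cast_pow, ← pow_mul]
  constructor
  · intro h s hs x hx hk
    obtain ⟨M, hM, hk⟩ := killed_iff_frob.1 hk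
    refine h (s * M) (Nat.mul_pos hs hM) x hx ?_
    have h1 := iterate_eq (frob Φ X (s * M)) ((p : W.K) ^ (Φ.e X * (s * M) * m)) b x
    refine h1.trans ?_
    rw [← hc]
    exact hk
  · intro h s hs x hx hk
    refine h s hs x hx (killed_iff_frob.2 ⟨1, one_pos, ?_⟩)
    have h1 := iterate_eq (frob Φ X s) ((p : W.K) ^ (Φ.e X * s * m)) b x
    rw [mul_one, hc]
    exact h1.symm.trans hk

theorem tateTo_one {m : ℕ} : TateTo Φ X 1 m ↔ TateIn Φ X m :=
  tateTo_iff.trans Pool.Agent.Y138.TU.tateIn_iff.symm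

theorem forall_tateTo {m : ℕ} : (∀ b, TateTo Φ X b m) ↔ SemisimpleTateIn Φ X m := by
  rw [semisimple_iff]
  exact forall_congr' fun b => tateTo_iff

end Pool.Agent.Run7.h142.GT
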