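import Pool.Agent.Run7.h142.GT.Main

/-!
# The Tate conjecture for the products (helper142)

The passage from relations to cycles is adapted from the starting file `Y138/KC/Gen`.
-/

set_option autoImplicit false
set_option linter.unusedSectionVars false

open CategoryTheory AlgebraicGeometry NumberField
open scoped TensorProduct
open Pool.Agent.W552 hiding cj cj_cj

universe u v

namespace Pool.Agent.Run7.h142.GT

open Pool.Agent.H914 Pool.Agent.H914.VarClass Pool.Agent.H914.VarClass.Obj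
  Pool.Agent.H914.WeilCohomology Pool.Agent.H281R3.HT Pool.Agent.W534
  Pool.Agent.W458.RK Pool.Agent.W458.MF Pool.Agent.TH132.A Pool.Agent.W536.RR
  Pool.Agent.TH121.KT Pool.Agent.Y138.TU Pool.Agent.Run7.h142.LT

variable {k : Type u} [Field k] {𝒱 : VarClass k} {ops : CycleOps 𝒱}
  {W : WeilCohomology.{u, v} ops} {p : ℕ} [Fact p.Prime] {Φ : FrobSystem W p}
  {ι : Qb →+* PadicAlgCl p}
  {κ : Type} {E : κ → Type} [∀ k, Field (E k)] [∀ k, NumberField (E k)]
  [∀ k, IsCMField (E k)] {s : ℕ} {f : Fin s → κ} {α : ∀ j, E (f j)}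
  {X : Fin s → 𝒱.Obj} {d e : Fin s → ℕ} {Z U : 𝒱.Obj}

section root

theorem rootL_nil : RootL Φ X e α [] := by
  intro Z t M
  refine ⟨1, one_pos, ?_⟩
  unfold lpr
  rw [List.map_nil, List.prod_nil, one_pow]

theorem rootL_perm {l l' : List (Σ j, (E (f j) →+* W.K))} (hl : l.Perm l')
    (h : RootL Φ X e α l) : RootL Φ X e α l' := by
  intro Z t M
  obtain ⟨N, hN, h1⟩ := h Z t M
  refine ⟨N, hN, ?_⟩
  unfold lpr at h1 ⊢
  rw [← (hl.map _).prod_eq, h1]

theorem rootL_of_append {l l' : List (Σ j, (E (f j) →+* W.K))}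
    (h : RootL Φ X e α (l ++ l')) (h' : RootL Φ X e α l) : RootL Φ X e α l' := by
  intro Z t M
  obtain ⟨N, hN, h1⟩ := h Z t M
  obtain ⟨N', hN', h2⟩ := h' Z t M
  refine ⟨N * N', Nat.mul_pos hN hN', ?_⟩
  unfold lpr at h1 h2 ⊢
  rw [List.map_append, List.prod_append] at h1
  have h3 : ((l.map fun x => x.2 (α x.1) ^ expo Φ X e Z t M x.1).prod) ^ (N * N') = 1 := by
    rw [mul_comm, pow_mul, h2, one_pow]
  have h4 := congrArg (fun z => z ^ N') h1
  simp only [one_pow] at h4
  rw [← pow_mul, mul_pow, h3, one_mul] at h4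
  exact h4

theorem rootL_zero [IsAlgClosed W.K] (hα : ∀ j (φ : E (f j) →+* ℂ), ‖φ (α j)‖ = 1) :
    ∀ (n : ℕ) (m : List (Σ j, (E (f j) →+* W.K))), m.length ≤ n → netL m = 0 →
      RootL Φ X e α m := by
  intro n
  induction n with
  | zero =>
    intro m hm _
    rw [List.length_eq_zero_iff.1 (Nat.le_zero.1 hm)]
    exact rootL_nil
  | succ n ih =>
    intro m hm hnet
    by_cases h0 : m = []
    · rw [h0]
      exact rootL_nil
    · obtain ⟨x, m', h1, h2⟩ := netL_zero_split hnet h0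
      refine rootL_perm h1.symm ?_
      refine rootL_append (l := [x, br x]) (rootL_pair hα x) (ih m' ?_ h2)
      have h3 := h1.length_eq
      rw [List.length_cons, List.length_cons] at h3
      omega

theorem rootL_net [IsAlgClosed W.K] (hα : ∀ j (φ : E (f j) →+* ℂ), ‖φ (α j)‖ = 1)
    {l l' : List (Σ j, (E (f j) →+* W.K))} (hnet : netL l = netL l')
    (h : RootL Φ X e α l) : RootL Φ X e α l' := by
  have h1 : netL (l' ++ l.map br) = 0 := by
    rw [netL_append, netL_br, hnet, add_neg_cancel]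
  have h2 : netL (l.map br ++ l) = 0 := by
    rw [netL_append, netL_br, neg_add_cancel]
  have h3 := rootL_append (rootL_zero (Φ := Φ) (X := X) (e := e) hα _ _ le_rfl h1) h
  rw [List.append_assoc] at h3
  exact rootL_of_append (rootL_perm List.perm_append_comm h3)
    (rootL_zero hα _ (l.map br ++ l) le_rfl h2)

theorem rootL_bal [IsAlgClosed W.K] (hα : IsPNumber p α d) (hpos : ∀ j, 0 < e j)
    {B : κ → Set (Fin s → ℤ)}
    (hB : ∀ k, AddSubgroup.closure (B k) = relations p α (degs Φ X e) k)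
    (L : List (LL Φ X d e α Z)) (hbal : IsBal L) : RootL Φ X e α (L.map Lt.label) :=
  word_induction (Φ := Φ) (X := X) (d := d) (e := e) (α := α) (Z := Z) (B := B) hB
    (P := fun l => RootL Φ X e α l) rootL_nil
    (fun _ _ h h' => rootL_append h h') (fun _ _ h h' => rootL_net hα.unitary h h')
    (fun k c hc S => rootL_lat hα hpos (by
      rw [← hB k]
      exact AddSubgroup.subset_closure hc) S) L.length L le_rfl hbal

end root

theorem zpow_card_inj (t : ℕ) (ht : 0 < t) {a b : ℤ}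
    (h : (card Φ Z t : W.K) ^ a = (card Φ Z t : W.K) ^ b) : a = b := by
  have hp := (Fact.out : p.Prime).one_lt
  have h1 : (1 : ℚ) < (card Φ Z t : ℚ) := by
    rw [W534.card]
    push_cast
    exact one_lt_pow₀ (by exact_mod_cast hp) (Nat.mul_pos (Φ.e_pos _) ht).ne'
  have h2 : (((card Φ Z t : ℚ) ^ a : ℚ) : W.K) = (((card Φ Z t : ℚ) ^ b : ℚ) : W.K) := by
    push_cast
    exact h
  have h3 : (card Φ Z t : ℚ) ^ a = (card Φ Z t : ℚ) ^ b := by exact_mod_cast h2
  exact zpow_right_injective₀ (by linarith) (ne_of_gt h1) h3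

variable [Fintype κ]

/-- **The Tate conjecture for the products of copies of the `X j` with all varieties.** -/
theorem tateTimesP_gen [IsAlgClosed W.K] {PP : W.K → Prop}
    (hX : HaveWeilNumbers (K := fun j => E (f j)) Φ α X d e) (hα : IsPNumber p α d)
    {L : IntermediateField ℚ Qb} (hE : NoRigidPairsOver E L) {B : κ → Set (Fin s → ℤ)}
    (hT : TateForGenerators Φ X d B)
    (hB : ∀ k, AddSubgroup.closure (B k) = relations p α (degs Φ X e) k)
    (hPP : ∀ ν, PP ν → InL p ι L ν)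
    (hev : (∀ k, ∀ c ∈ B k, Even (degOf d c)) ∨ ∀ ν, PP ν → ν = 1) (hZ : IsProduct W X Z) :
    TateTimesP Φ PP Z := by
  classical
  intro t hs V _ _ _ G hG c' a x hx
  have hp0 : (p : W.K) ≠ 0 := by exact_mod_cast (Fact.out : p.Prime).ne_zero
  have hpq : (p : ℚ) ≠ 0 := by exact_mod_cast (Fact.out : p.Prime).ne_zero
  have hcard : ∀ t, ((card Φ Z t : ℚ)) ≠ 0 := by
    intro t
    rw [W534.card]
    push_cast
    exact pow_ne_zero _ hpq
  have hQ : ∀ t, (card Φ Z t : W.K) ≠ 0 := fun t => card_ne Φ t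
  refine (tensor_killed (F := frob Φ Z t) (G := G) (card Φ Z t : W.K) (hQ t) c'
    (fun i => cycSub W Z i) (fun i y hy => cyc_killed Φ hy) ?_ a x).1 hx
  intro μ ν N hN hν hrel
  refine le_trans ?_ algSpan_le_cyc
  intro y hy
  have hPν := hG ν hν
  obtain ⟨Q, ν₀, t', ht, hQ0, hLQ, hν₀, hνν⟩ := hPP ν hPν
  have hν0 : ν₀ ≠ 0 := by
    rintro rfl
    rw [hνν, zero_pow ht.ne', mul_zero, zero_pow hN.ne'] at hrel
    exact pow_ne_zero _ (zpow_ne_zero _ (hQ t)) hrel.symm
  obtain ⟨t₀, ht₀, h0⟩ := span_gd (span_wds hX hZ y)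
  have h1 := h0 t hs
  set T := t₀ * t with hTdef
  have hTs : T = t * t₀ := mul_comm t₀ t
  have hTpos : 0 < T := Nat.mul_pos ht₀ hs
  have h2 : y ∈ Module.End.maxGenEigenspace (frob Φ Z T) (μ ^ t₀) := by
    rw [hTs, frob_mul_eq]
    exact gen_pow_of_gen hy _
  have heig : ∀ v ∈ GoodWds (K := fun j => E (f j)) Φ X d e α Z T,
      ∃ (ω : W.K) (M j : ℕ) (L : List (LL Φ X d e α Z))
      (C : W.H Z), frob Φ Z T v = (ω * (card Φ Z T : W.K) ^ j) • v ∧ 0 < M ∧
      C ∈ algSpan W Z ∧ v = wval L * C ∧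
      ω ^ (2 * (∏ j, (e j * Φ.e (X j))) * M) =
        (card Φ Z T : W.K) ^ ((L.map fun l => d l.i).sum * (∏ j, (e j * Φ.e (X j))) * M) *
        letterProd (K := fun i => E (f i)) α (expo Φ X e Z T M)
          (mlt (K := fun j => E (f j)) L) := by
    rintro v ⟨L, j, M, z, hM, hz, hL, hcyc, rfl⟩
    obtain ⟨ω, h3, h4⟩ := word_eig L hL
    refine ⟨ω, M, j, L, W.cl Z z, ?_, hM, cl_mem_algSpan hz, rfl, ?_⟩
    · rw [frob_mul_apply, h3, hcyc, smul_mul_smul_comm]
    · rw [h4, prod_lts]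
  have h3 := mem_span_gen (T := frob Φ Z T) (fun v hv => by
    obtain ⟨ω, _, j, _, _, h, _⟩ := heig v hv
    exact ⟨ω * (card Φ Z T : W.K) ^ j, eig_mem_gen h⟩) h1 h2
  refine (Submodule.span_le (p := algSpan W Z)).2 ?_ h3
  rintro v ⟨hv, hvμ⟩
  by_cases hv0 : v = 0
  · rw [hv0]
    exact Submodule.zero_mem _
  obtain ⟨ω, M, j, Lw, C, h4, hM, hC, hvL, h5⟩ := heig v hv
  have h6 : ω * (card Φ Z T : W.K) ^ j = μ ^ t₀ := eq_of_mem_gen (eig_mem_gen h4) hvμ hv0
  -- the relation
  let D : ℕ := 2 * (∏ j, (e j * Φ.e (X j))) * M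
  let A : ℕ := (Lw.map fun l => d l.i).sum * (∏ j, (e j * Φ.e (X j))) * M
  have hDpos : 0 < ∏ j, (e j * Φ.e (X j)) := Finset.prod_pos fun j _ =>
    Nat.mul_pos (hX.pos j) (Φ.e_pos _)
  have hD : 0 < D := Nat.mul_pos (Nat.mul_pos two_pos hDpos) hM
  let w : Fin s → ℕ := expo Φ X e Z T M
  let x₀ : ℚ := ((card Φ Z t : ℚ) ^ c') ^ (N * (t₀ * D)) *
    (((card Φ Z T : ℚ) ^ (j * D + A)) ^ N)⁻¹
  have hx₀ : x₀ ≠ 0 := mul_ne_zero (pow_ne_zero _ (zpow_ne_zero _ (hcard t)))
    (inv_ne_zero (pow_ne_zero _ (pow_ne_zero _ (hcard T))))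
  have h7 : letterProd (K := fun i => E (f i)) α (fun i => N * w i)
      (mlt (K := fun j => E (f j)) Lw) * ν₀ ^ (t' * (N * (t₀ * D))) = (x₀ : W.K) := by
    rw [← letterProd_pow]
    have h8 : (μ * ν₀ ^ t') ^ (N * (t₀ * D)) = ((card Φ Z t : W.K) ^ c') ^ (N * (t₀ * D)) := by
      rw [← hνν, pow_mul, hrel, ← pow_mul]
    have h9 : μ ^ (N * (t₀ * D)) = ((card Φ Z T : W.K) ^ (j * D + A)) ^ N *
        letterProd (K := fun i => E (f i)) α w (mlt (K := fun j => E (f j)) Lw) ^ N := by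
      have e1 : μ ^ (N * (t₀ * D)) = ((μ ^ t₀) ^ D) ^ N := by
        rw [← pow_mul, ← pow_mul]
        congr 1
        ring
      rw [e1, ← h6, mul_pow, show ω ^ D = _ from h5, ← mul_pow, pow_add, ← pow_mul]
      ring
    rw [mul_pow, h9] at h8
    have h10 : (x₀ : W.K) = ((card Φ Z t : W.K) ^ c') ^ (N * (t₀ * D)) *
        (((card Φ Z T : W.K) ^ (j * D + A)) ^ N)⁻¹ := by
      simp only [x₀]
      push_cast
      rfl
    have h11 : ((card Φ Z T : W.K) ^ (j * D + A)) ^ N ≠ 0 :=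
      pow_ne_zero _ (pow_ne_zero _ (hQ T))
    rw [h10, ← h8, pow_mul ν₀ t']
    generalize ((card Φ Z T : W.K) ^ (j * D + A)) ^ N = B at h11
    field_simp
  have hbal : IsBal Lw := isBal_of_rel (ι := ι) hα.unitary hX.pos hE Lw hTpos hM hN hx₀ hν0 h7
    hQ0 hν₀ hLQ
  have hdeg : Even (Lw.map fun l => d l.i).sum := by
    rcases hev with hev | hev
    · exact bal_even hB hev Lw hbal
    · have hν1 := hev ν hPν
      obtain ⟨N', hN', h12⟩ := rootL_bal hα hX.pos hB Lw hbal Z T M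
      have h13 : lpr α (expo Φ X e Z T M) (Lw.map Lt.label) =
          letterProd (K := fun i => E (f i)) α w (mlt (K := fun j => E (f j)) Lw) := by
        rw [← prod_lts]
        unfold lpr
        rw [← map_labels Lw]
        rfl
      rw [h13] at h12
      have h14 : ω ^ (D * N') = (card Φ Z T : W.K) ^ (A * N') := by
        rw [pow_mul, show ω ^ D = _ from h5, mul_pow, h12, mul_one, ← pow_mul]
      have h15 : (card Φ Z t : W.K) ^ t₀ = (card Φ Z T : W.K) := by
        rw [W534.card, W534.card, hTdef]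
        push_cast
        rw [← pow_mul]
        congr 1
        ring
      have h16 : (μ ^ t₀) ^ N = ((card Φ Z T : W.K) ^ c') ^ N := by
        rw [hν1, mul_one] at hrel
        rw [← pow_mul, mul_comm t₀ N, pow_mul, hrel, ← h15, ← pow_mul, ← zpow_natCast,
          ← zpow_natCast, ← zpow_natCast, ← zpow_mul, ← zpow_mul, ← zpow_mul]
        congr 1
        push_cast
        ring
      rw [← h6, mul_pow] at h16
      have e1 : (ω ^ N * ((card Φ Z T : W.K) ^ j) ^ N) ^ (D * N') =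
          (card Φ Z T : W.K) ^ (A * N' * N + j * N * (D * N')) := by
        have e3 : (ω ^ N) ^ (D * N') = (ω ^ (D * N')) ^ N := by
          rw [← pow_mul, ← pow_mul, mul_comm]
        rw [mul_pow, e3, h14, ← pow_mul, ← pow_mul, ← pow_mul, ← pow_add]
        congr 1
        ring
      have e2 : (((card Φ Z T : W.K) ^ c') ^ N) ^ (D * N') =
          (card Φ Z T : W.K) ^ (c' * ((N * (D * N') : ℕ) : ℤ)) := by
        rw [← pow_mul, ← zpow_natCast, ← zpow_mul]
      have h17 : (card Φ Z T : W.K) ^ ((A * N' * N + j * N * (D * N') : ℕ) : ℤ) =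
          (card Φ Z T : W.K) ^ (c' * ((N * (D * N') : ℕ) : ℤ)) := by
        rw [zpow_natCast, ← e1, ← e2, h16]
      have h18 := zpow_card_inj T hTpos h17
      have h19 : (((Lw.map fun l => d l.i).sum : ℕ) : ℤ) = 2 * (c' - j) := by
        have hpos : (0 : ℤ) < ((∏ j, (e j * Φ.e (X j)) : ℕ) : ℤ) * M * N' * N := by
          have h20 : 0 < (∏ j, (e j * Φ.e (X j))) * M * N' * N :=
            Nat.mul_pos (Nat.mul_pos (Nat.mul_pos hDpos hM) hN') hN
          exact_mod_cast h20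
        refine mul_right_cancel₀ hpos.ne' ?_
        simp only [D, A] at h18
        push_cast at h18 ⊢
        linear_combination h18
      have h21 : Even ((((Lw.map fun l => d l.i).sum : ℕ) : ℤ)) := by
        rw [h19]
        exact even_two_mul _
      exact_mod_cast h21
  rw [hvL]
  exact algSpan_mul (bal_alg hX hα hE hT hB Lw hbal hdeg) hC

/-- **The products with all varieties.** -/
theorem tate_times [IsAlgClosed W.K]
    (hX : HaveWeilNumbers (K := fun j => E (f j)) Φ α X d e) (hα : IsPNumber p α d)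
    {L : IntermediateField ℚ Qb} (hE : NoRigidPairsOver E L) {B : κ → Set (Fin s → ℤ)}
    (hT : TateForGenerators Φ X d B)
    (hB : ∀ k, AddSubgroup.closure (B k) = relations p α (degs Φ X e) k)
    (hev : ∀ k, ∀ c ∈ B k, Even (degOf d c))
    (hZ : IsProduct W X Z) {U : 𝒱.Obj} (hU : FrobeniusSlopes Φ ι L U) (b m : ℕ) :
    TateTo Φ (Z.prod U) b m ↔
      ∀ i ≤ m, HasCycle W Z i → TateTo Φ U b (m - i) := by
  have hp := (Fact.out : p.Prime).one_lt
  obtain ⟨Q, hQ, hLQ, hroot⟩ := hU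
  have hTT := tateTimesP_gen (ι := ι) (PP := InL p ι L) hX hα hE hT hB (fun ν hν => hν)
    (Or.inl hev) hZ
  have hhc : ∀ i, HasCycle W Z i ↔ ∃ x, Z.IsCyc i x ∧ ¬ HomEq W x 0 := by
    intro i
    unfold HasCycle HomEq
    simp only [map_zero, ne_eq]
  simp only [hhc, tateTo_iff]
  exact tateK_prod_iff hp hTT (inL_one L) (fun ν n hn h => inL_pow L ν n hn h)
    (fun ν hν => ⟨Q, ν, 1, one_pos, hQ, hLQ, hroot ν hν, (pow_one ν).symm⟩)

theorem semisimple_product [IsAlgClosed W.K]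
    (hX : HaveWeilNumbers (K := fun j => E (f j)) Φ α X d e) (hα : IsPNumber p α d)
    {L : IntermediateField ℚ Qb} (hE : NoRigidPairsOver E L) {B : κ → Set (Fin s → ℤ)}
    (hT : TateForGenerators Φ X d B)
    (hB : ∀ k, AddSubgroup.closure (B k) = relations p α (degs Φ X e) k)
    (hZ : IsProduct W X Z) (m : ℕ) : SemisimpleTateIn Φ Z m := by
  have hp := (Fact.out : p.Prime).one_lt
  let ι : Qb →+* PadicAlgCl p := (IsAlgClosed.lift : Qb →ₐ[ℚ] PadicAlgCl p).toRingHom
  intro t ht x hx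
  have hTT := tateTimesP_gen (ι := ι) (PP := fun ν => ν = 1) hX hα hE hT hB
    (fun ν hν => by
      rw [hν]
      exact inL_one _) (Or.inr fun ν hν => hν) hZ
  obtain ⟨⟨b, hb⟩, -⟩ := (mem_genTate Φ).1 hx
  rw [← cycSub_eq]
  exact gen_algP hp hTT rfl ht hb

theorem isProduct_prodOf (X : Fin s → 𝒱.Obj) (i : Fin s) (l : List (Fin s)) :
    IsProduct W X (prodOf X i l) := by
  induction l generalizing i with
  | nil => exact IsProduct.base i
  | cons j l ih => exact IsProduct.prod (IsProduct.base i) (ih j)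

/-- **The products.** -/
theorem tate_products_iff [IsAlgClosed W.K]
    (hX : HaveWeilNumbers (K := fun j => E (f j)) Φ α X d e) (hα : IsPNumber p α d)
    {L : IntermediateField ℚ Qb} (hE : NoRigidPairsOver E L) {B : κ → Set (Fin s → ℤ)}
    (hB : ∀ k, AddSubgroup.closure (B k) = relations p α (degs Φ X e) k) :
    (∀ Z, IsProduct W X Z → ∀ b m, TateTo Φ Z b m) ↔ TateForGenerators Φ X d B := by
  constructor
  · intro h1
    have h2 : ∀ (l : List (Fin s)) (n : ℕ), TateForList Φ X l n := by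
      intro l n i l' _
      exact h1 _ (isProduct_prodOf X i l') _ _
    refine ⟨fun j => ?_, fun k c _ _ => h2 _ _, fun k k' c _ c' _ _ _ => h2 _ _⟩
    exact h1 _ (IsProduct.prod (IsProduct.base j) (IsProduct.base j)) _ _
  · intro hT Z hZ b m
    exact forall_tateTo.2 (semisimple_product hX hα hE hT hB hZ m) b

end Pool.Agent.Run7.h142.GT
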