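import Pool.Agent.Run7.h142.GT.Letter
import Pool.Agent.Run7.h142.RT.Dec
import Pool.Agent.Run7.h142.RT.Diag
import Pool.Agent.Y138.TU.Main

/-!
# Balanced words (helper142)
-/

set_option autoImplicit false
set_option linter.unusedSectionVars false

open CategoryTheory AlgebraicGeometry NumberField
open scoped TensorProduct
open Pool.Agent.W552 hiding cj cj_cj

universe u v

namespace Pool.Agent.Run7.h142.GT

open Pool.Agent.H914 Pool.Agent.H914.VarClass Pool.Agent.H914.VarClass.Obj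
  Pool.Agent.H914.WeilCohomology Pool.Agent.H281R3.HT Pool.Agent.W534
  Pool.Agent.W458.RK Pool.Agent.W458.MF Pool.Agent.TH132.A Pool.Agent.W536.RR
  Pool.Agent.TH121.KT Pool.Agent.Run7.h142.LT

variable {k : Type u} [Field k] {𝒱 : VarClass k} {ops : CycleOps 𝒱}
  {W : WeilCohomology.{u, v} ops} {p : ℕ} [Fact p.Prime] {Φ : FrobSystem W p}
  {ι : Qb →+* PadicAlgCl p}
  {κ : Type} {E : κ → Type} [∀ k, Field (E k)] [∀ k, NumberField (E k)] [∀ k, IsCMField (E k)]
  {s : ℕ} {f : Fin s → κ} {α : ∀ j, E (f j)} {X : Fin s → 𝒱.Obj} {d e : Fin s → ℕ} {Z : 𝒱.Obj}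

/-- the letters -/
abbrev LL (Φ : FrobSystem W p) (X : Fin s → 𝒱.Obj) (d e : Fin s → ℕ) (α : ∀ j, E (f j))
    (Z : 𝒱.Obj) := Lt (K := fun j => E (f j)) Φ X d e α Z

open Classical in
/-- the sign of an embedding with respect to another one -/
noncomputable def dz {F : Type} {A : Type*} [Field F] [NumberField F] [IsCMField F] [Field A]
    (σ S : F →+* A) : ℤ := (if σ = S then 1 else 0) - (if σ = cj S then 1 else 0)

section dz

variable {F : Type} {A : Type*} [Field F] [NumberField F] [IsCMField F] [Field A]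
  {σ S : F →+* A}

theorem dz_self : dz σ σ = 1 := by
  unfold dz
  rw [if_pos rfl, if_neg (fun h => cj_ne σ h.symm), sub_zero]

theorem dz_cj (σ S : F →+* A) : dz σ (cj S) = - dz σ S := by
  unfold dz
  rw [cj_cj]
  ring

theorem dz_of_ne (h1 : σ ≠ S) (h2 : σ ≠ cj S) : dz σ S = 0 := by
  unfold dz
  rw [if_neg h1, if_neg h2, sub_zero]

end dz

open Classical in
/-- the contribution of a label -/
noncomputable def contr {A : Type*} [Field A] (k : κ) (S : ∀ k, E k →+* A)
    (x : Σ j, (E (f j) →+* A)) : Fin s → ℤ :=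
  if f x.1 = k then Pi.single x.1 (dz x.2 (S (f x.1))) else 0

/-- the coefficients of a word -/
noncomputable def netAt (L : List (LL Φ X d e α Z)) (k : κ) (S : ∀ k, E k →+* W.K) :
    Fin s → ℤ := (L.map fun l => contr k S l.label).sum

/-- the linear relations hold -/
def IsBal (L : List (LL Φ X d e α Z)) : Prop :=
  ∀ (k : κ) (S : ∀ k, E k →+* W.K), netAt L k S ∈ relations p α (degs Φ X e) k

/-- the linear form -/
noncomputable def phi (p : ℕ) [Fact p.Prime] (α : ∀ j, E (f j)) (n : Fin s → ℕ)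
    (T : ∀ k, E k →+* PadicAlgCl p) : (Fin s → ℤ) →+ ℝ where
  toFun c := ∑ j, (c j : ℝ) * slope p α n j T
  map_zero' := by simp
  map_add' a b := by
    rw [← Finset.sum_add_distrib]
    refine Finset.sum_congr rfl fun j _ => ?_
    rw [Pi.add_apply, Int.cast_add, add_mul]

theorem phi_apply (n : Fin s → ℕ) (T : ∀ k, E k →+* PadicAlgCl p) (c : Fin s → ℤ) :
    phi p α n T c = ∑ j, (c j : ℝ) * slope p α n j T := rfl

theorem phi_single (n : Fin s → ℕ) (T : ∀ k, E k →+* PadicAlgCl p) (j : Fin s) (a : ℤ) :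
    phi p α n T (Pi.single j a) = a * slope p α n j T := by
  rw [phi_apply, Finset.sum_eq_single j]
  · rw [Pi.single_eq_same]
  · intro i _ hi
    rw [Pi.single_eq_of_ne hi, Int.cast_zero, zero_mul]
  · intro h
    exact absurd (Finset.mem_univ _) h

theorem mem_relations {n : Fin s → ℕ} {k : κ} {c : Fin s → ℤ} :
    c ∈ relations p α n k ↔ (∀ j, f j ≠ k → c j = 0) ∧ ∀ T, phi p α n T c = 0 := Iff.rfl

theorem contr_off {A : Type*} [Field A] {k : κ} {S : ∀ k, E k →+* A}
    {x : Σ j, (E (f j) →+* A)} {j : Fin s} (h : f j ≠ k) : contr k S x j = 0 := by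
  unfold contr
  split_ifs with h1
  · by_cases h2 : j = x.1
    · rw [h2] at h
      exact absurd h1 h
    · rw [Pi.single_eq_of_ne h2]
  · rfl

theorem netAt_off (L : List (LL Φ X d e α Z)) {k : κ} {S : ∀ k, E k →+* W.K} {j : Fin s}
    (h : f j ≠ k) : netAt L k S j = 0 := by
  unfold netAt
  induction L with
  | nil => rfl
  | cons a L ih =>
    rw [List.map_cons, List.sum_cons, Pi.add_apply, ih, contr_off h, add_zero]

open Classical in
/-- the value of the linear form -/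
theorem phi_netAt (L : List (LL Φ X d e α Z)) (n : Fin s → ℕ) (k : κ) (S : ∀ k, E k →+* W.K)
    (T : ∀ k, E k →+* PadicAlgCl p) :
    phi p α n T (netAt L k S) = ∑ i, if f i = k then
        ((mlt (K := fun j => E (f j)) L i (S (f i)) : ℝ) -
          mlt (K := fun j => E (f j)) L i (cj (S (f i)))) * slope p α n i T else 0 := by
  have h1 : (L.map fun l => contr k S l.label) = (L.map Lt.label).map fun x => contr k S x := by
    rw [List.map_map]
    rfl
  unfold netAt
  rw [h1, Finset.sum_list_map_count, Finset.sum_subset (Finset.subset_univ _),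
    Fintype.sum_sigma, map_sum]
  · refine Finset.sum_congr rfl fun i _ => ?_
    have h2 : ∀ σ : E (f i) →+* W.K, phi p α n T ((L.map Lt.label).count ⟨i, σ⟩ •
        contr k S ⟨i, σ⟩) = (if f i = k then
          (mlt (K := fun j => E (f j)) L i σ : ℝ) * (dz σ (S (f i)) : ℤ) *
          slope p α n i T else 0) := by
      intro σ
      unfold contr
      rw [map_nsmul, nsmul_eq_mul]
      change ((mlt (K := fun j => E (f j)) L i σ : ℕ) : ℝ) *
        phi p α n T (if f i = k then _ else 0) = _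
      split_ifs
      · rw [phi_single, mul_assoc]
      · rw [map_zero, mul_zero]
    rw [map_sum, Finset.sum_congr rfl fun σ _ => h2 σ]
    by_cases h3 : f i = k
    · simp only [if_pos h3]
      rw [← Finset.sum_mul]
      congr 1
      unfold dz
      push_cast
      simp only [mul_sub, Finset.sum_sub_distrib, mul_ite, mul_one, mul_zero]
      rw [Finset.sum_ite_eq', Finset.sum_ite_eq']
      simp
    · simp only [if_neg h3, Finset.sum_const_zero]
  · intro x _ hx
    rw [List.mem_toFinset] at hx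
    rw [List.count_eq_zero_of_not_mem hx, zero_smul]

/-- the exponents in terms of the degrees -/
theorem expo_mul (Z : 𝒱.Obj) (t M : ℕ) (j : Fin s) :
    expo Φ X e Z t M j * degs Φ X e j = 2 * (t * Φ.e Z) * M * ∏ i, (e i * Φ.e (X i)) := by
  unfold expo degs
  rw [mul_assoc, mul_comm (∏ i ∈ Finset.univ.erase j, _), Finset.mul_prod_erase Finset.univ
    (fun i => e i * Φ.e (X i)) (Finset.mem_univ j)]

theorem degs_pos (hpos : ∀ j, 0 < e j) (j : Fin s) : 0 < degs Φ X e j :=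
  Nat.mul_pos (hpos j) (Φ.e_pos _)

/-- **Words with a rational relation are balanced.** -/
theorem isBal_of_rel [Fintype κ] [IsAlgClosed W.K]
    (hα : ∀ j (φ : E (f j) →+* ℂ), ‖φ (α j)‖ = 1) (hpos : ∀ j, 0 < e j)
    {L' : IntermediateField ℚ Qb} (hE : NoRigidPairsOver E L') (L : List (LL Φ X d e α Z))
    {t M N n : ℕ} (ht : 0 < t) (hM : 0 < M) (hN : 0 < N) {ν : W.K} {x₀ : ℚ} (hx₀ : x₀ ≠ 0)
    (hν0 : ν ≠ 0)
    (hrel : letterProd (K := fun i => E (f i)) α (fun i => N * expo Φ X e Z t M i)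
      (mlt (K := fun j => E (f j)) L) * ν ^ n = (x₀ : W.K))
    {Q : Polynomial ℚ} (hQ : Q ≠ 0) (hν : Polynomial.aeval ν Q = 0)
    (hL : SlopesFixed p ι L' Q) : IsBal L := by
  classical
  intro k' S
  refine ⟨fun j hj => netAt_off L hj, fun T' => ?_⟩
  change phi p α (degs Φ X e) T' (netAt L k' S) = 0
  rw [phi_netAt]
  have h12 := Pool.Agent.Run7.h142.RT.diag_of_relation (E := E) (f := f) (α := α) ι
    (mlt (K := fun j => E (f j)) L) (w := fun i => N * expo Φ X e Z t M i) hx₀ hν0 hrel hQ hν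
    hL hE hα k' S T'
  have hDpos : 0 < ∏ j, (e j * Φ.e (X j)) := Finset.prod_pos fun j _ =>
    Nat.mul_pos (hpos j) (Φ.e_pos _)
  let Cst : ℕ := N * (2 * (t * Φ.e Z) * M * ∏ i, (e i * Φ.e (X i)))
  have hCst : (Cst : ℝ) ≠ 0 := Nat.cast_ne_zero.2 (Nat.mul_pos hN (Nat.mul_pos
    (Nat.mul_pos (Nat.mul_pos two_pos (Nat.mul_pos ht (Φ.e_pos _))) hM) hDpos)).ne'
  refine (mul_eq_zero.1 (?_ : (Cst : ℝ) * _ = 0)).resolve_left hCst
  rw [Finset.mul_sum]
  refine Eq.trans (Finset.sum_congr rfl fun i _ => ?_) h12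
  by_cases h13 : f i = k'
  · rw [if_pos h13, if_pos h13]
    have h14 : ((expo Φ X e Z t M i : ℕ) : ℝ) * ((degs Φ X e i : ℕ) : ℝ) =
        ((2 * (t * Φ.e Z) * M * ∏ i, (e i * Φ.e (X i)) : ℕ) : ℝ) := by
      rw [← Nat.cast_mul, expo_mul]
    have h15 : ((degs Φ X e i : ℕ) : ℝ) ≠ 0 := Nat.cast_ne_zero.2 (degs_pos hpos i).ne'
    simp only [Cst]
    rw [Nat.cast_mul, ← h14, Nat.cast_mul]
    unfold slope
    field_simp
  · rw [if_neg h13, if_neg h13, mul_zero]

theorem slopesFixed_one (L' : IntermediateField ℚ Qb) :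
    SlopesFixed p ι L' (Polynomial.X - 1 : Polynomial ℚ) := by
  intro h _ β hβ
  have h2 : β = 1 := by
    rw [map_sub, Polynomial.aeval_X, map_one, sub_eq_zero] at hβ
    exact hβ
  rw [h2, map_one]

/-- **Words which pair nontrivially with an algebraic class are balanced.** -/
theorem isBal_of_tr [Fintype κ] [IsAlgClosed W.K]
    (hα : ∀ j (φ : E (f j) →+* ℂ), ‖φ (α j)‖ = 1) (hpos : ∀ j, 0 < e j)
    {L' : IntermediateField ℚ Qb} (hE : NoRigidPairsOver E L') (L : List (LL Φ X d e α Z))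
    {j : ℕ} {c : Z.Cycles} (hc : Z.IsCyc j c) (htr : W.tr Z (wval L * W.cl Z c) ≠ 0) :
    IsBal L := by
  have hp := (Fact.out : p.Prime).one_lt
  let ι : Qb →+* PadicAlgCl p := (IsAlgClosed.lift : Qb →ₐ[ℚ] PadicAlgCl p).toRingHom
  obtain ⟨a, M, ha, hM, hl⟩ := word_lev L
  obtain ⟨b, hb, hcyc⟩ := Φ.cyc hc
  have hcyc : frob Φ Z b (W.cl Z c) = (card Φ Z b : W.K) ^ j • W.cl Z c := by
    rw [card_pow]
    exact hcyc
  set T := a * b with hT
  have hT0 : 0 < T := Nat.mul_pos ha hb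
  obtain ⟨ω, h1, h2⟩ := word_eig L (hl b hb)
  have h3 : frob Φ Z T (W.cl Z c) = (card Φ Z T : W.K) ^ j • W.cl Z c := by
    rw [hT, mul_comm a b]
    exact eig_pow hcyc a
  have hQ : (card Φ Z T : W.K) ≠ 0 := card_ne Φ T
  have h4 : frob Φ Z T (wval L * W.cl Z c) =
      (ω * (card Φ Z T : W.K) ^ j) • (wval L * W.cl Z c) := by
    rw [frob_mul_apply, h1, h3, smul_mul_smul_comm]
  have h5 : W.tr Z (frob Φ Z T (wval L * W.cl Z c)) =
      (card Φ Z T : W.K) ^ Z.dim * W.tr Z (wval L * W.cl Z c) := by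
    rw [card_pow]
    exact Pool.Agent.W534.tr_iter Φ T _
  rw [h4, map_smul, smul_eq_mul] at h5
  have h6 : ω * (card Φ Z T : W.K) ^ j = (card Φ Z T : W.K) ^ Z.dim := mul_right_cancel₀ htr h5
  have hcq : (card Φ Z T : ℚ) ≠ 0 := by
    rw [W534.card]
    push_cast
    exact pow_ne_zero _ (by exact_mod_cast (Fact.out : p.Prime).ne_zero)
  have hω : ω = (card Φ Z T : W.K) ^ Z.dim * ((card Φ Z T : W.K) ^ j)⁻¹ := by
    rw [← h6, mul_inv_cancel_right₀ (pow_ne_zero _ hQ)]
  rw [prod_lts] at h2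
  let B : ℕ := 2 * (∏ j, (e j * Φ.e (X j))) * M
  let A : ℕ := (L.map fun l => d l.i).sum * (∏ j, (e j * Φ.e (X j))) * M
  let x₀ : ℚ := ((card Φ Z T : ℚ) ^ Z.dim * ((card Φ Z T : ℚ) ^ j)⁻¹) ^ B *
    ((card Φ Z T : ℚ) ^ A)⁻¹
  have hx₀ : x₀ ≠ 0 := mul_ne_zero (pow_ne_zero _ (mul_ne_zero (pow_ne_zero _ hcq)
    (inv_ne_zero (pow_ne_zero _ hcq)))) (inv_ne_zero (pow_ne_zero _ hcq))
  refine isBal_of_rel (ι := ι) hα hpos hE L (N := 1) (ν := 1) (n := 0) (x₀ := x₀) hT0 hM one_pos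
    hx₀ one_ne_zero ?_ (Polynomial.X_sub_C_ne_zero (1 : ℚ)) (by simp) (slopesFixed_one L')
  have h7 : (fun i => 1 * expo Φ X e Z T M i) = expo Φ X e Z T M := by
    funext i
    rw [one_mul]
  rw [h7, pow_zero, mul_one]
  have h8 : (x₀ : W.K) = ω ^ B * ((card Φ Z T : W.K) ^ A)⁻¹ := by
    rw [hω]
    simp only [x₀]
    push_cast
    rfl
  rw [h8]
  have h9 : ω ^ B = (card Φ Z T : W.K) ^ A * letterProd (K := fun i => E (f i)) α
      (expo Φ X e Z T M) (mlt (K := fun j => E (f j)) L) := h2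
  rw [h9, mul_comm ((card Φ Z T : W.K) ^ A), mul_inv_cancel_right₀ (pow_ne_zero _ hQ)]

end Pool.Agent.Run7.h142.GT
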