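import Pool.Agent.Run7.h142.GT.Block
import Pool.Agent.Run7.h142.RT.Root

/-!
# The group of the algebraic relations (helper142)
-/

set_option autoImplicit false
set_option linter.unusedSectionVars false

open CategoryTheory AlgebraicGeometry NumberField
open scoped TensorProduct
open Pool.Agent.W552 hiding cj cj_cj

universe u v

namespace Pool.Agent.Run7.h142.GT

open Pool.Agent.H914 Pool.Agent.H914.VarClass Pool.Agent.H914.VarClass.Obj
  Pool.Agent.H914.WeilCohomology Pool.Agent.H281R3.HT Pool.Agent.W534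
  Pool.Agent.W458.RK Pool.Agent.W458.MF Pool.Agent.TH132.A Pool.Agent.W536.RR
  Pool.Agent.TH121.KT Pool.Agent.Run7.h142.LT

variable {k : Type u} [Field k] {𝒱 : VarClass k} {ops : CycleOps 𝒱}
  {W : WeilCohomology.{u, v} ops} {p : ℕ} [Fact p.Prime] {Φ : FrobSystem W p}
  {κ : Type} {E : κ → Type} [∀ k, Field (E k)] [∀ k, NumberField (E k)] [∀ k, IsCMField (E k)]
  {s : ℕ} {f : Fin s → κ} {α : ∀ j, E (f j)} {X : Fin s → 𝒱.Obj} {d e : Fin s → ℕ} {Z : 𝒱.Obj}

/-- the opposite label -/
noncomputable def br (x : Σ j, (E (f j) →+* W.K)) : Σ j, (E (f j) →+* W.K) := ⟨x.1, cj x.2⟩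

theorem br_br (x : Σ j, (E (f j) →+* W.K)) : br (br x) = x := by
  obtain ⟨j, σ⟩ := x
  change (⟨j, cj (cj σ)⟩ : Σ j, (E (f j) →+* W.K)) = ⟨j, σ⟩
  rw [cj_cj]

theorem br_ne (x : Σ j, (E (f j) →+* W.K)) : br x ≠ x := by
  obtain ⟨j, σ⟩ := x
  intro h
  have h1 := Sigma.mk.inj_iff.1 h
  exact cj_ne σ (eq_of_heq h1.2)

/-- all words with the given labels are algebraic -/
def AlgL (Φ : FrobSystem W p) (X : Fin s → 𝒱.Obj) (d e : Fin s → ℕ) (α : ∀ j, E (f j))
    (l : List (Σ j, (E (f j) →+* W.K))) : Prop :=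
  ∀ (Z : 𝒱.Obj) (G : List (LL Φ X d e α Z)), G.map Lt.label = l → wval G ∈ algSpan W Z

theorem algL_nil : AlgL Φ X d e α [] := by
  intro Z G h
  rw [List.map_eq_nil_iff] at h
  rw [h, wval_nil]
  exact one_mem_algSpan

theorem algL_append {l l' : List (Σ j, (E (f j) →+* W.K))} (h : AlgL Φ X d e α l)
    (h' : AlgL Φ X d e α l') : AlgL Φ X d e α (l ++ l') := by
  intro Z G h1
  obtain ⟨G₁, G₂, rfl, h2, h3⟩ := List.map_eq_append_iff.1 h1
  rw [wval_append]
  exact algSpan_mul (h Z G₁ h2) (h' Z G₂ h3)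

theorem perm_lift {A B : Type*} {g : A → B} {l l' : List B} (h : l.Perm l') :
    ∀ G : List A, G.map g = l → ∃ G' : List A, G.Perm G' ∧ G'.map g = l' := by
  induction h with
  | nil => exact fun G hG => ⟨G, List.Perm.refl _, hG⟩
  | cons x _ ih =>
    intro G hG
    obtain ⟨a, G₁, rfl, ha, h1⟩ := List.map_eq_cons_iff.1 hG
    obtain ⟨G', h2, h3⟩ := ih G₁ h1
    exact ⟨a :: G', h2.cons a, by rw [List.map_cons, ha, h3]⟩
  | swap x y l =>
    intro G hG
    obtain ⟨a, G₁, rfl, ha, h1⟩ := List.map_eq_cons_iff.1 hG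
    obtain ⟨b, G₂, rfl, hb, h2⟩ := List.map_eq_cons_iff.1 h1
    exact ⟨b :: a :: G₂, List.Perm.swap _ _ _, by
      rw [List.map_cons, List.map_cons, ha, hb, h2]⟩
  | trans _ _ ih1 ih2 =>
    intro G hG
    obtain ⟨G₁, h1, h2⟩ := ih1 G hG
    obtain ⟨G₂, h3, h4⟩ := ih2 G₁ h2
    exact ⟨G₂, h1.trans h3, h4⟩

theorem algL_perm {l l' : List (Σ j, (E (f j) →+* W.K))} (hl : l.Perm l')
    (h : AlgL Φ X d e α l) : AlgL Φ X d e α l' := by
  intro Z G h1
  obtain ⟨G', h2, h3⟩ := perm_lift hl.symm G h1
  obtain ⟨c, hc⟩ := wval_perm h2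
  rw [hc]
  exact Submodule.smul_mem _ _ (h Z G' h3)

open Classical in
/-- the coefficients of a list of labels -/
noncomputable def netL (l : List (Σ j, (E (f j) →+* W.K))) (x : Σ j, (E (f j) →+* W.K)) : ℤ :=
  (l.count x : ℤ) - l.count (br x)

theorem netL_nil : netL ([] : List (Σ j, (E (f j) →+* W.K))) = 0 := by
  classical
  funext x
  unfold netL
  simp

theorem netL_append (l l' : List (Σ j, (E (f j) →+* W.K))) :
    netL (l ++ l') = netL l + netL l' := by
  classical
  funext x
  unfold netL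
  rw [Pi.add_apply, List.count_append, List.count_append]
  push_cast
  ring

theorem netL_perm {l l' : List (Σ j, (E (f j) →+* W.K))} (h : l.Perm l') :
    netL l = netL l' := by
  classical
  funext x
  unfold netL
  rw [h.count_eq, h.count_eq]

theorem netL_pair (x : Σ j, (E (f j) →+* W.K)) : netL [x, br x] = 0 := by
  classical
  funext y
  unfold netL
  rw [Pi.zero_apply, List.count_cons, List.count_cons, List.count_nil, List.count_cons,
    List.count_cons, List.count_nil]
  have h1 : (br x == br y) = (x == y) := by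
    rw [beq_eq_beq]
    constructor
    · intro h
      rw [← br_br x, h, br_br]
    · rintro rfl
      rfl
  have h2 : (x == br y) = (br x == y) := by
    rw [beq_eq_beq]
    constructor
    · intro h
      rw [h, br_br]
    · rintro rfl
      rw [br_br]
  rw [h1, h2]
  push_cast
  ring

theorem netL_br (l : List (Σ j, (E (f j) →+* W.K))) : netL (l.map br) = - netL l := by
  induction l with
  | nil => rw [List.map_nil, netL_nil, neg_zero]
  | cons x l ih =>
    have h1 : netL [x] + netL [br x] = 0 := by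
      rw [← netL_append]
      exact netL_pair x
    rw [List.map_cons, show br x :: l.map br = [br x] ++ l.map br from rfl,
      show x :: l = [x] ++ l from rfl, netL_append, netL_append, ih, neg_add,
      eq_neg_of_add_eq_zero_right h1]

theorem netL_zero_split {m : List (Σ j, (E (f j) →+* W.K))} (hm : netL m = 0) (h0 : m ≠ []) :
    ∃ x m', m.Perm (x :: br x :: m') ∧ netL m' = 0 := by
  classical
  rcases m with _ | ⟨x, m⟩
  · exact absurd rfl h0
  · have h1 : br x ∈ m := by
      have h2 := congrFun hm x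
      unfold netL at h2
      rw [Pi.zero_apply] at h2
      have h3 : 0 < (x :: m).count x := List.count_pos_iff.2 List.mem_cons_self
      have h4 : 0 < (x :: m).count (br x) := by omega
      rcases List.mem_cons.1 (List.count_pos_iff.1 h4) with h5 | h5
      · exact absurd h5 (br_ne x)
      · exact h5
    have h3 := (List.perm_cons_erase h1).cons x
    refine ⟨x, m.erase (br x), h3, ?_⟩
    have h5 := netL_perm h3
    rw [hm, show x :: br x :: m.erase (br x) = [x, br x] ++ m.erase (br x) from rfl,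
      netL_append, netL_pair, zero_add] at h5
    exact h5.symm

/-- the degree of a list of labels -/
def dg (d : Fin s → ℕ) (l : List (Σ j, (E (f j) →+* W.K))) : ℕ := (l.map fun x => d x.1).sum

theorem dg_append (l l' : List (Σ j, (E (f j) →+* W.K))) :
    dg d (l ++ l') = dg d l + dg d l' := by
  unfold dg
  rw [List.map_append, List.sum_append]

theorem dg_br (l : List (Σ j, (E (f j) →+* W.K))) : dg d (l.map br) = dg d l := by
  unfold dg
  rw [List.map_map]
  rfl

theorem dg_perm {l l' : List (Σ j, (E (f j) →+* W.K))} (h : l.Perm l') :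
    dg d l = dg d l' := (h.map _).sum_eq

theorem dg_even : ∀ (n : ℕ) (m : List (Σ j, (E (f j) →+* W.K))), m.length ≤ n → netL m = 0 →
    Even (dg d m) := by
  intro n
  induction n with
  | zero =>
    intro m hm _
    rw [List.length_eq_zero_iff.1 (Nat.le_zero.1 hm)]
    exact Even.zero
  | succ n ih =>
    intro m hm hnet
    by_cases h0 : m = []
    · rw [h0]
      exact Even.zero
    · obtain ⟨x, m', h1, h2⟩ := netL_zero_split hnet h0
      rw [dg_perm h1, show x :: br x :: m' = [x, br x] ++ m' from rfl, dg_append]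
      have h3 := h1.length_eq
      rw [List.length_cons, List.length_cons] at h3
      refine Even.add ?_ (ih m' (by omega) h2)
      exact ⟨d x.1, rfl⟩

theorem dg_parity {l l' : List (Σ j, (E (f j) →+* W.K))} (h : netL l = netL l') :
    Even (dg d l + dg d l') := by
  have h1 : netL (l ++ l'.map br) = 0 := by
    rw [netL_append, netL_br, h, add_neg_cancel]
  have h2 := dg_even (d := d) _ _ le_rfl h1
  rwa [dg_append, dg_br] at h2

section

variable [IsAlgClosed W.K]

theorem rootL_pair (hα : ∀ j (φ : E (f j) →+* ℂ), ‖φ (α j)‖ = 1)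
    (x : Σ j, (E (f j) →+* W.K)) : RootL Φ X e α [x, br x] := by
  intro Z t M
  refine ⟨1, one_pos, ?_⟩
  unfold lpr
  rw [pow_one, List.map_cons, List.map_cons, List.map_nil, List.prod_cons, List.prod_cons,
    List.prod_nil, mul_one]
  change x.2 (α x.1) ^ expo Φ X e Z t M x.1 * (cj x.2) (α x.1) ^ expo Φ X e Z t M x.1 = 1
  have h1 : x.2 (α x.1) ≠ 0 := by
    rw [ne_eq, map_eq_zero]
    exact alpha_ne (hα x.1)
  rw [cj_val (hα x.1), ← mul_pow, mul_inv_cancel₀ h1, one_pow]

/-- pairs -/
theorem algL_pair (hα : ∀ j (φ : E (f j) →+* ℂ), ‖φ (α j)‖ = 1) (hpos : ∀ j, 0 < e j)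
    (x : Σ j, (E (f j) →+* W.K)) (hT : TateTo Φ ((X x.1).prod (X x.1)) 1 (d x.1)) :
    AlgL Φ X d e α [x, br x] := by
  intro Z G h1
  have h2 : (G.map fun l => l.i) = [x.1, x.1] := by
    rw [show (G.map fun l => l.i) = (G.map Lt.label).map fun x => x.1 from
      map_labels G fun x => x.1, h1]
    rfl
  have h3 : (G.map fun l => d l.i) = [d x.1, d x.1] := by
    rw [show (G.map fun l => d l.i) = (G.map Lt.label).map fun x => d x.1 from
      map_labels G fun x => d x.1, h1]
    rfl
  refine block_alg hpos G (m := d x.1) ?_ ?_ ?_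
  · rw [h3, List.sum_cons, List.sum_cons, List.sum_nil]
    ring
  · intro i l' h4
    rw [h2] at h4
    injection h4 with h5 h6
    subst h5
    subst h6
    exact hT
  · rw [h1]
    exact rootL_pair hα x

variable [Fintype κ] {L' : IntermediateField ℚ Qb}


end

end Pool.Agent.Run7.h142.GT
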