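import Pool.Agent.Run7.h142.GT.Alg

/-!
# Cancellation (helper142)
-/

set_option autoImplicit false
set_option linter.unusedSectionVars false

open CategoryTheory AlgebraicGeometry NumberField
open scoped TensorProduct
open Pool.Agent.W552 hiding cj cj_cj

universe u v

namespace Pool.Agent.Run7.h142.GT

open Pool.Agent.H914 Pool.Agent.H914.VarClass Pool.Agent.H914.VarClass.Obj
  Pool.Agent.H914.WeilCohomology Pool.Agent.H281R3.HT Pool.Agent.W534
  Pool.Agent.W458.RK Pool.Agent.W458.MF Pool.Agent.TH132.A Pool.Agent.W536.RR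
  Pool.Agent.TH121.KT Pool.Agent.Run7.h142.LT

variable {k : Type u} [Field k] {𝒱 : VarClass k} {ops : CycleOps 𝒱}
  {W : WeilCohomology.{u, v} ops} {p : ℕ} [Fact p.Prime] {Φ : FrobSystem W p}
  {κ : Type} {E : κ → Type} [∀ k, Field (E k)] [∀ k, NumberField (E k)] [∀ k, IsCMField (E k)]
  {s : ℕ} {f : Fin s → κ} {α : ∀ j, E (f j)} {X : Fin s → 𝒱.Obj} {d e : Fin s → ℕ} {Z : 𝒱.Obj}

section

variable [IsAlgClosed W.K] [Fintype κ] {L' : IntermediateField ℚ Qb}

/-- if the slopes of one of the numbers are zero then it is a root of unity -/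
theorem root_of_slopes (hα : IsPNumber p α d) (hpos : ∀ j, 0 < e j) (j : Fin s)
    (h : ∀ T, phi p α (degs Φ X e) T (Pi.single j 1) = 0) (σ : E (f j) →+* W.K) :
    ∃ N, 0 < N ∧ σ (α j) ^ N = 1 := by
  classical
  have hne : ∀ k, Nonempty (E k →+* W.K) := fun k =>
    ⟨(IsAlgClosed.lift : E k →ₐ[ℚ] W.K).toRingHom⟩
  let S : ∀ k, E k →+* W.K := Function.update (fun k => (hne k).some) (f j) σ
  have hS : S (f j) = σ := Function.update_self _ _ _
  obtain ⟨N, hN, h1⟩ := Pool.Agent.Run7.h142.RT.root_of_relation (p := p)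
    ⟨hα.unitary, hα.unit⟩ S (fun _ => 1) [(j, true)] (fun T => by
      rw [List.map_cons, List.map_nil, List.sum_cons, List.sum_nil, add_zero]
      have h2 := h T
      rw [phi_single, Int.cast_one, one_mul] at h2
      unfold slope at h2
      have h3 : ((degs Φ X e j : ℕ) : ℝ) ≠ 0 := Nat.cast_ne_zero.2 (degs_pos hpos j).ne'
      rw [div_eq_zero_iff] at h2
      change _ * (_ * Real.log ‖T (f j) (α j)‖) = 0
      rw [h2.resolve_right h3, mul_zero, mul_zero])
  refine ⟨N, hN, ?_⟩
  unfold Pool.Agent.Run7.h142.RT.lprod at h1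
  rw [List.map_cons, List.map_nil, List.prod_cons, List.prod_nil, mul_one] at h1
  unfold Pool.Agent.Run7.h142.RT.lval at h1
  change ((if true = true then S (f j) (α j) else _) ^ 1) ^ N = 1 at h1
  rw [if_pos rfl, pow_one, hS] at h1
  exact h1

/-- the slope of one of the numbers -/
theorem phi_ne (hα : IsPNumber p α d) (hpos : ∀ j, 0 < e j) (j : Fin s) (hj : Even (d j)) :
    ∃ T, phi p α (degs Φ X e) T (Pi.single j 1) ≠ 0 := by
  classical
  obtain ⟨τ, hτ⟩ := hα.not_unit j hj
  have hne : ∀ k, Nonempty (E k →+* PadicAlgCl p) := fun k =>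
    ⟨(IsAlgClosed.lift : E k →ₐ[ℚ] PadicAlgCl p).toRingHom⟩
  refine ⟨Function.update (fun k => (hne k).some) (f j) τ, ?_⟩
  rw [phi_single, Int.cast_one, one_mul]
  unfold slope
  rw [Function.update_self]
  have h1 : 0 < ‖τ (α j)‖ := norm_pos_iff.2 ((_root_.map_ne_zero τ).2 (alpha_ne (hα.unitary j)))
  refine div_ne_zero ?_ (Nat.cast_ne_zero.2 (degs_pos hpos j).ne')
  intro h2
  exact hτ (Real.eq_one_of_pos_of_log_eq_zero h1 h2)

/-- letters for a root of unity can be relabelled -/
theorem relabel {j : Fin s} {σ τ : E (f j) →+* W.K} {N : ℕ} (hN : 0 < N)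
    (h1 : σ (α j) ^ N = 1) (h2 : τ (α j) ^ N = 1) {y : W.H (X j)}
    (hy : IsL Φ (X j) (d j) (e j) (α j) τ y) : IsL Φ (X j) (d j) (e j) (α j) σ y := by
  obtain ⟨h3, μ, M, hM, h4, h5⟩ := hy
  refine ⟨h3, μ, M * N, Nat.mul_pos hM hN, h4, ?_⟩
  have e1 : μ ^ (2 * e j * (M * N)) = (μ ^ (2 * e j * M)) ^ N := by
    rw [← pow_mul]
    congr 1
    ring
  rw [e1, h5, mul_pow, ← pow_mul, ← pow_mul, mul_comm (2 * M) N, pow_mul (τ (α j)), h2, one_pow,
    show 2 * (M * N) = N * (2 * M) by ring, pow_mul (σ (α j)), h1, one_pow]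
  congr 2
  ring

/-- dual letters -/
theorem exists_dual (hX : HaveWeilNumbers (K := fun j => E (f j)) Φ α X d e)
    (hα : IsPNumber p α d) (hE : NoRigidPairsOver E L')
    (j : Fin s) (σ : E (f j) →+* W.K) : ∃ (x y : W.H (X j)) (i : ℕ) (z : (X j).Cycles),
      IsL Φ (X j) (d j) (e j) (α j) σ x ∧ IsL Φ (X j) (d j) (e j) (α j) (cj σ) y ∧
      (X j).IsCyc i z ∧ W.tr (X j) (x * y * W.cl (X j) z) ≠ 0 := by
  classical
  obtain ⟨x, hx0, hxL⟩ := (hX.weil j).occurs σ
  replace hxL : IsL Φ (X j) (d j) (e j) (α j) σ x := hxL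
  obtain ⟨z₀, hz₀, hperf⟩ := (hX.weil j).perfect
  obtain ⟨y, hy, hxy₀⟩ := hperf x hxL.1 hx0
  have hexz : ∃ i z, (X j).IsCyc i z ∧ W.tr (X j) (x * y * W.cl (X j) z) ≠ 0 := by
    by_contra hno
    push Not at hno
    refine hxy₀ ?_
    refine algSpan_induction (p := fun c => W.tr (X j) (x * y * c) = 0)
      (by rw [mul_zero, map_zero])
      (fun a b ha hb => by rw [mul_add, map_add, ha, hb, add_zero])
      (fun t a ha => by rw [mul_smul_comm, map_smul, ha, smul_zero])
      (fun i' z' hz' => hno i' z' hz') hz₀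
  obtain ⟨i, z, hz, hxy⟩ := hexz
  obtain ⟨c, hc, y', hy', rfl⟩ := Submodule.mem_sup.1 (gr_sup hX j hy)
  let lx : LL Φ X d e α (X j) := ⟨j, 𝟙 (X j), σ, x, hxL⟩
  have hvx : lx.val = x := W.map_id (X j) x
  have hne' : ∀ k, Nonempty (E k →+* W.K) := fun k =>
    ⟨(IsAlgClosed.lift : E k →ₐ[ℚ] W.K).toRingHom⟩
  let S : ∀ k, E k →+* W.K := Function.update (fun k => (hne' k).some) (f j) σ
  have hS : S (f j) = σ := Function.update_self _ _ _
  -- the algebraic part
  have hA : W.tr (X j) (x * c * W.cl (X j) z) = 0 := by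
    by_contra hne
    have hex : ∃ i' z', (X j).IsCyc i' z' ∧
        W.tr (X j) (x * W.cl (X j) z' * W.cl (X j) z) ≠ 0 := by
      by_contra hno
      push Not at hno
      refine hne ?_
      refine algSpan_induction (p := fun c => W.tr (X j) (x * c * W.cl (X j) z) = 0)
        (by rw [mul_zero, zero_mul, map_zero])
        (fun a b ha hb => by rw [mul_add, add_mul, map_add, ha, hb, add_zero])
        (fun t a ha => by rw [mul_smul_comm, smul_mul_assoc, map_smul, ha, smul_zero])
        (fun i' z' hz' => hno i' z' hz') hc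
    obtain ⟨i', z', hz', h1⟩ := hex
    by_cases hd : Even (d j)
    · have h2 : W.tr (X j) (wval [lx] * W.cl (X j) (ops.mul z' z)) ≠ 0 := by
        rw [wval_cons, wval_nil, mul_one, hvx, W.cl_mul, ← mul_assoc]
        exact h1
      have h3 := isBal_of_tr hα.unitary hX.pos hE [lx] (ops.mul_mem hz' hz) h2
      have h4 := h3 (f j) S
      have h5 : netAt [lx] (f j) S = Pi.single j 1 := by
        unfold netAt contr
        rw [List.map_cons, List.map_nil, List.sum_cons, List.sum_nil, add_zero]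
        change (if f j = f j then Pi.single j (dz σ (S (f j))) else 0 : Fin s → ℤ) = _
        rw [if_pos rfl, hS, dz_self]
      rw [h5] at h4
      obtain ⟨T, hT⟩ := phi_ne (Φ := Φ) (X := X) hα hX.pos j hd
      exact hT (h4.2 T)
    · refine h1 (W.tr_eq_zero (W.mul_mem (W.mul_mem hxL.1 (W.cl_mem hz')) (W.cl_mem hz)) ?_)
      rw [Nat.not_even_iff_odd] at hd
      obtain ⟨m, hm⟩ := hd
      omega
  rw [mul_add, add_mul, map_add, hA, zero_add] at hxy
  -- the letters
  have hex : ∃ τ y'', IsL Φ (X j) (d j) (e j) (α j) τ y'' ∧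
      W.tr (X j) (x * y'' * W.cl (X j) z) ≠ 0 := by
    by_contra hno
    push Not at hno
    refine hxy ?_
    clear hxy hy hxy₀
    induction hy' using Submodule.span_induction with
    | mem v hv =>
      obtain ⟨τ, hv⟩ := hv
      exact hno τ v hv
    | zero => rw [mul_zero, zero_mul, map_zero]
    | add a b _ _ ha hb => rw [mul_add, add_mul, map_add, ha, hb, add_zero]
    | smul t a _ ha => rw [mul_smul_comm, smul_mul_assoc, map_smul, ha, smul_zero]
  obtain ⟨τ, y'', hyL, hy2⟩ := hex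
  by_cases hphi : ∀ T, phi p α (degs Φ X e) T (Pi.single j 1) = 0
  · obtain ⟨N, hN, h1⟩ := root_of_slopes hα hX.pos j hphi (cj σ)
    obtain ⟨M, hM, h2⟩ := root_of_slopes hα hX.pos j hphi τ
    refine ⟨x, y'', i, z, hxL, relabel (N := N * M) (Nat.mul_pos hN hM) ?_ ?_ hyL, hz, hy2⟩
    · rw [pow_mul, h1, one_pow]
    · rw [mul_comm, pow_mul, h2, one_pow]
  · push Not at hphi
    obtain ⟨T, hT⟩ := hphi
    let ly : LL Φ X d e α (X j) := ⟨j, 𝟙 (X j), τ, y'', hyL⟩
    have hvy : ly.val = y'' := W.map_id (X j) y''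
    have h2 : W.tr (X j) (wval [lx, ly] * W.cl (X j) z) ≠ 0 := by
      rw [wval_cons, wval_cons, wval_nil, mul_one, hvx, hvy]
      exact hy2
    have h3 := isBal_of_tr hα.unitary hX.pos hE [lx, ly] hz h2
    have h4 := h3 (f j) S
    have h5 : netAt [lx, ly] (f j) S = (1 + dz τ σ) • Pi.single j 1 := by
      unfold netAt contr
      rw [List.map_cons, List.map_cons, List.map_nil, List.sum_cons, List.sum_cons,
        List.sum_nil, add_zero]
      change (if f j = f j then Pi.single j (dz σ (S (f j))) else 0 : Fin s → ℤ) +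
        (if f j = f j then Pi.single j (dz τ (S (f j))) else 0 : Fin s → ℤ) = _
      rw [if_pos rfl, if_pos rfl, hS, dz_self, ← Pi.single_add, ← Pi.single_smul, smul_eq_mul,
        mul_one]
    rw [h5] at h4
    have h6 := h4.2 T
    change phi p α (degs Φ X e) T _ = 0 at h6
    rw [map_zsmul, smul_eq_zero] at h6
    have h7 : 1 + dz τ σ = 0 := h6.resolve_right hT
    have h8 : τ = cj σ := by
      by_contra hne
      unfold dz at h7
      rw [if_neg hne] at h7
      split_ifs at h7 <;> omega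
    subst h8
    exact ⟨x, y'', i, z, hxL, hyL, hz, hy2⟩

/-- cancellation of pairs -/
theorem algL_cancel (hX : HaveWeilNumbers (K := fun j => E (f j)) Φ α X d e)
    (hα : IsPNumber p α d) (hE : NoRigidPairsOver E L')
    {x : Σ j, (E (f j) →+* W.K)} {l : List (Σ j, (E (f j) →+* W.K))}
    (h : AlgL Φ X d e α (x :: br x :: l)) :
    AlgL Φ X d e α l := by
  classical
  obtain ⟨j, σ⟩ := x
  intro Z G h1
  obtain ⟨x, y, i, z, hx, hy, hz, hxy⟩ := exists_dual hX hα hE j σ
  let lx : LL Φ X d e α (Z.prod (X j)) := ⟨j, snd Z (X j), σ, x, hx⟩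
  let ly : LL Φ X d e α (Z.prod (X j)) := ⟨j, snd Z (X j), cj σ, y, hy⟩
  have h2 := h (Z.prod (X j)) (lx :: ly :: G.map (Lt.pull (fst Z (X j)))) (by
    rw [List.map_cons, List.map_cons, List.map_map, ← h1]
    rfl)
  have h3 : wval (lx :: ly :: G.map (Lt.pull (fst Z (X j)))) =
      W.map (fst Z (X j)) (wval G) * W.map (snd Z (X j)) (x * y) := by
    rw [wval_cons, wval_cons, wval_pull, ← mul_assoc, map_mul]
    change W.map (snd Z (X j)) x * W.map (snd Z (X j)) y * _ = _
    rw [← map_mul]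
    have h4 : W.map (snd Z (X j)) (x * y) ∈ W.gr _ (2 * d j) := by
      rw [two_mul]
      exact W.map_mem _ (W.mul_mem hx.1 hy.1)
    exact W.even_comm h4 _
  have h4 := algSpan_mul h2 (algSpan_map (snd Z (X j)) (cl_mem_algSpan (W := W) hz))
  rw [h3, mul_assoc, ← map_mul] at h4
  have h5 := algSpan_push (fst Z (X j)) h4
  rw [Pool.Agent.H281R3.HT.push_fst (wval G)
    (W.mul_mem (W.mul_mem hx.1 hy.1) (W.cl_mem hz))] at h5
  exact (Submodule.smul_mem_iff _ hxy).1 h5

/-- **words with zero coefficients are algebraic** -/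
theorem algL_zero (hpair : ∀ x, AlgL Φ X d e α [x, br x]) :
    ∀ (n : ℕ) (m : List (Σ j, (E (f j) →+* W.K))), m.length ≤ n → netL m = 0 →
      AlgL Φ X d e α m := by
  intro n
  induction n with
  | zero =>
    intro m hm _
    rw [List.length_eq_zero_iff.1 (Nat.le_zero.1 hm)]
    exact algL_nil
  | succ n ih =>
    intro m hm hnet
    by_cases h0 : m = []
    · rw [h0]
      exact algL_nil
    · obtain ⟨x, m', h1, h2⟩ := netL_zero_split hnet h0
      refine algL_perm h1.symm ?_
      refine algL_append (l := [x, br x]) (hpair x) (ih m' ?_ h2)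
      have h3 := h1.length_eq
      rw [List.length_cons, List.length_cons] at h3
      omega

theorem algL_cancel_zero (hX : HaveWeilNumbers (K := fun j => E (f j)) Φ α X d e)
    (hα : IsPNumber p α d) (hE : NoRigidPairsOver E L') :
    ∀ (n : ℕ) (m l : List (Σ j, (E (f j) →+* W.K))), m.length ≤ n → netL m = 0 →
      AlgL Φ X d e α (m ++ l) → AlgL Φ X d e α l := by
  intro n
  induction n with
  | zero =>
    intro m l hm _ h
    rw [List.length_eq_zero_iff.1 (Nat.le_zero.1 hm)] at h
    exact h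
  | succ n ih =>
    intro m l hm hnet h
    by_cases h0 : m = []
    · rw [h0] at h
      exact h
    · obtain ⟨x, m', h1, h2⟩ := netL_zero_split hnet h0
      have h3 := h1.length_eq
      rw [List.length_cons, List.length_cons] at h3
      refine ih m' l (by omega) h2 ?_
      exact algL_cancel hX hα hE (algL_perm (h1.append_right l) h)

/-- the algebraicity depends only on the coefficients -/
theorem algL_net (hX : HaveWeilNumbers (K := fun j => E (f j)) Φ α X d e)
    (hα : IsPNumber p α d) (hE : NoRigidPairsOver E L')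
    (hpair : ∀ x, AlgL Φ X d e α [x, br x])
    {l l' : List (Σ j, (E (f j) →+* W.K))} (hnet : netL l = netL l')
    (h : AlgL Φ X d e α l) : AlgL Φ X d e α l' := by
  have h1 : netL (l' ++ l.map br) = 0 := by
    rw [netL_append, netL_br, hnet, add_neg_cancel]
  have h2 : netL (l.map br ++ l) = 0 := by
    rw [netL_append, netL_br, neg_add_cancel]
  have h3 := algL_append (algL_zero hpair _ _ le_rfl h1) h
  rw [List.append_assoc] at h3
  exact algL_cancel_zero hX hα hE _ (l.map br ++ l) l' le_rfl h2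
    (algL_perm List.perm_append_comm h3)

end

end Pool.Agent.Run7.h142.GT
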