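import Pool.Agent.Run7.h142.GT.Bal
import Pool.Agent.Run7.h142.GT.TateLem
import Pool.Agent.Run7.h142.RT.Root

/-!
# Words of relations are algebraic (helper142)
-/

set_option autoImplicit false
set_option linter.unusedSectionVars false

open CategoryTheory AlgebraicGeometry NumberField
open scoped TensorProduct
open Pool.Agent.W552 hiding cj cj_cj

universe u v

namespace Pool.Agent.Run7.h142.GT

open Pool.Agent.H914 Pool.Agent.H914.VarClass Pool.Agent.H914.VarClass.Obj
  Pool.Agent.H914.WeilCohomology Pool.Agent.H281R3.HT Pool.Agent.W534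
  Pool.Agent.W458.RK Pool.Agent.W458.MF Pool.Agent.TH132.A Pool.Agent.W536.RR
  Pool.Agent.TH121.KT Pool.Agent.Run7.h142.LT


variable {k : Type u} [Field k] {𝒱 : VarClass k} {ops : CycleOps 𝒱}
  {W : WeilCohomology.{u, v} ops} {p : ℕ} [Fact p.Prime] {Φ : FrobSystem W p}
  {κ : Type} {E : κ → Type} [∀ k, Field (E k)] [∀ k, NumberField (E k)] [∀ k, IsCMField (E k)]
  {s : ℕ} {f : Fin s → κ} {α : ∀ j, E (f j)} {X : Fin s → 𝒱.Obj} {d e : Fin s → ℕ} {Z : 𝒱.Obj}

/-- the product over a list of labels -/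
noncomputable def lpr (α : ∀ j, E (f j)) {A : Type*} [Field A] (m : Fin s → ℕ)
    (l : List (Σ j, (E (f j) →+* A))) : A := (l.map fun x => (x.2 (α x.1)) ^ m x.1).prod

/-- the products over the list of labels are roots of unity -/
def RootL (Φ : FrobSystem W p) (X : Fin s → 𝒱.Obj) (e : Fin s → ℕ) (α : ∀ j, E (f j))
    (l : List (Σ j, (E (f j) →+* W.K))) : Prop :=
  ∀ (Z : 𝒱.Obj) (t M : ℕ), ∃ N, 0 < N ∧ lpr α (expo Φ X e Z t M) l ^ N = 1

theorem rootL_append {l l' : List (Σ j, (E (f j) →+* W.K))} (h : RootL Φ X e α l)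
    (h' : RootL Φ X e α l') : RootL Φ X e α (l ++ l') := by
  intro Z t M
  obtain ⟨N, hN, h1⟩ := h Z t M
  obtain ⟨N', hN', h2⟩ := h' Z t M
  refine ⟨N * N', Nat.mul_pos hN hN', ?_⟩
  unfold lpr at h1 h2 ⊢
  rw [List.map_append, List.prod_append, mul_pow, pow_mul, h1, one_pow, one_mul, mul_comm N,
    pow_mul, h2, one_pow]

/-- a word comes from the product of the varieties of its letters -/
lemma exists_tuple (a : LL Φ X d e α Z) (B : List (LL Φ X d e α Z)) :
    ∃ (g : Z ⟶ prodOf X a.i (B.map fun l => l.i))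
      (C : List (LL Φ X d e α (prodOf X a.i (B.map fun l => l.i)))),
      C.map Lt.label = (a :: B).map Lt.label ∧
      wval (a :: B) = W.map g (wval C) := by
  induction B generalizing a with
  | nil =>
    refine ⟨a.f, [⟨a.i, 𝟙 (X a.i), a.σ, a.x, a.h⟩], rfl, ?_⟩
    change wval [a] = W.map a.f (wval (K := fun j => E (f j))
      [⟨a.i, 𝟙 (X a.i), a.σ, a.x, a.h⟩])
    rw [wval_cons, wval_nil, wval_cons, wval_nil, mul_one, mul_one]
    change W.map a.f a.x = W.map a.f (W.map (𝟙 (X a.i)) a.x)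
    rw [W.map_id]
  | cons b B ih =>
    obtain ⟨g, C, h1, h2⟩ := ih b
    let Y := prodOf X b.i (B.map fun l => l.i)
    let a' : LL Φ X d e α ((X a.i).prod Y) := ⟨a.i, fst (X a.i) Y, a.σ, a.x, a.h⟩
    refine ⟨lift a.f g, a' :: C.map (Lt.pull (snd (X a.i) Y)), ?_, ?_⟩
    · change a'.label :: (C.map (Lt.pull (snd (X a.i) Y))).map Lt.label = a.label :: _
      rw [List.map_map]
      congr 1
    · change wval (a :: b :: B) =
        W.map (lift a.f g) (wval (a' :: C.map (Lt.pull (snd (X a.i) Y))))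
      rw [wval_cons a (b :: B), wval_cons a', wval_pull, map_mul, h2]
      congr 1
      · change W.map a.f a.x = W.map (lift a.f g) (W.map (fst (X a.i) Y) a.x)
        rw [← W.map_comp, lift_fst]
      · rw [← W.map_comp, lift_snd]

theorem map_labels {Y : 𝒱.Obj} (D : List (LL Φ X d e α Y)) {B : Type*}
    (g : (Σ j, (E (f j) →+* W.K)) → B) : (D.map fun l => g l.label) = (D.map Lt.label).map g := by
  rw [List.map_map]
  rfl

/-- the exact eigenvalue of a word whose labels give a root of unity -/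
theorem eig_of_root (L : List (LL Φ X d e α Z)) (hroot : RootL Φ X e α (L.map Lt.label))
    {t M : ℕ} (hL : ∀ l ∈ L, l.At t M) :
    ∃ (ω : W.K) (N : ℕ), 0 < N ∧ frob Φ Z t (wval L) = ω • wval L ∧
      ω ^ (2 * (∏ j, (e j * Φ.e (X j))) * M * N) =
        (card Φ Z t : W.K) ^ ((L.map fun l => d l.i).sum * (∏ j, (e j * Φ.e (X j))) * M * N) := by
  obtain ⟨ω, h1, h2⟩ := word_eig L hL
  obtain ⟨N, hN, h3⟩ := hroot Z t M
  refine ⟨ω, N, hN, h1, ?_⟩
  have h4 : (L.map fun l => (l.σ (α l.i)) ^ expo Φ X e Z t M l.i).prod =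
      lpr α (expo Φ X e Z t M) (L.map Lt.label) := by
    unfold lpr
    rw [← map_labels L]
    rfl
  rw [pow_mul, h2, mul_pow, h4, h3, mul_one, ← pow_mul]

/-- **Words of relations are algebraic if the Tate conjecture holds for the product.** -/
theorem block_alg [IsAlgClosed W.K] (hpos : ∀ j, 0 < e j)
    (G : List (LL Φ X d e α Z)) {m : ℕ} (hm : (G.map fun l => d l.i).sum = 2 * m)
    (hT : TateForList Φ X (G.map fun l => l.i) m)
    (hroot : RootL Φ X e α (G.map Lt.label)) :
    wval G ∈ algSpan W Z := by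
  classical
  rcases G with _ | ⟨a, B⟩
  · rw [wval_nil]
    exact one_mem_algSpan
  obtain ⟨g, C, hC, hv⟩ := exists_tuple a B
  rw [hv]
  refine algSpan_map _ ?_
  have hdim : (C.map fun l => d l.i).sum = 2 * m := by
    have h1 : ∀ {Y : 𝒱.Obj} (D : List (LL Φ X d e α Y)),
        (D.map fun l => d l.i) = (D.map Lt.label).map fun x => d x.1 :=
      fun D => map_labels D fun x => d x.1
    rw [h1, hC, ← h1, hm]
  refine Pool.Agent.W397.MF.spanCycles_le_algSpan _ (tateTo_one.1 (hT a.i (B.map fun l => l.i) rfl) _ ⟨?_, ?_⟩)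
  · rw [← hdim]
    exact wval_gr C
  · obtain ⟨t, M, ht, hM, hl⟩ := word_lev C
    have hl' := hl 1 one_pos
    rw [mul_one] at hl'
    obtain ⟨ω, N, hN, h1, h2⟩ := eig_of_root C (by rw [hC]; exact hroot) hl'
    let D : ℕ := ∏ j, (e j * Φ.e (X j))
    have hD : 0 < D := Finset.prod_pos fun j _ => Nat.mul_pos (hpos j) (Φ.e_pos _)
    have hd : 0 < 2 * D * M * N :=
      Nat.mul_pos (Nat.mul_pos (Nat.mul_pos two_pos hD) hM) hN
    refine ⟨t * (2 * D * M * N), Nat.mul_pos ht hd, ?_⟩
    have h4 : ω ^ (2 * D * M * N) =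
        (card Φ (prodOf X a.i (B.map fun l => l.i)) t : W.K) ^ (m * (2 * D * M * N)) := by
      rw [h2, hdim]
      congr 1
      ring
    change frob Φ _ (t * (2 * D * M * N)) (wval C) = _
    have h5 : ∀ n, ((frob Φ (prodOf X a.i (B.map fun l => l.i)) t) ^ n) (wval C) =
        ω ^ n • wval C := by
      intro n
      induction n with
      | zero => rw [pow_zero, pow_zero, one_smul]; rfl
      | succ n ih =>
        rw [pow_succ', Module.End.mul_apply, ih, map_smul, h1, smul_smul, pow_succ]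
    rw [frob_mul_eq, h5, h4, card_pow]
    congr 2
    ring

end Pool.Agent.Run7.h142.GT
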