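import Pool.Agent.W534.TateDefs

/-!
# The Tate conjecture, with or without semisimplicity: definition (helper142)
-/

set_option autoImplicit false

open CategoryTheory AlgebraicGeometry

universe u v

namespace Pool.Agent.Run7.h142.GT

open Pool.Agent.H914 Pool.Agent.W534 VarClass Obj WeilCohomology

/-- Each element `x` of `G` with `(f s - c s) ^ b x = 0`, for some `s > 0`, belongs to `A`. -/
def KilledIn {F M : Type*} [Field F] [AddCommGroup M] [Module F M] (A G : Submodule F M)
    (f : ℕ → M → M) (c : ℕ → F) (b : ℕ) : Prop :=
  ∀ s, 0 < s → ∀ x ∈ G, (fun y => f s y - c s • y)^[b] x = 0 → x ∈ A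

/-- The cohomology classes `x` of degree `2 m` on `X` with `(F - q ^ m) ^ b x = 0`, where `F` is the
Frobenius endomorphism over some finite field, with `q` elements, are combinations of classes of
algebraic cycles of codimension `m`. For `b = 1` this is the Tate conjecture; if it is true for all
`b`, this is the Tate conjecture and the semisimplicity of Frobenius at the eigenvalue `q ^ m`. -/
def TateTo {k : Type u} [Field k] {𝒱 : VarClass k} {ops : CycleOps 𝒱}
    {W : WeilCohomology.{u, v} ops} {p : ℕ} (Φ : FrobSystem W p) (X : 𝒱.Obj) (b m : ℕ) : Prop :=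
  KilledIn (spanCycles W X m) (W.gr X (2 * m)) (fun s => W.map (iter (Φ.Fr X) s))
    (fun s => (p : W.K) ^ (Φ.e X * s * m)) b

end Pool.Agent.Run7.h142.GT
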