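import Pool.Agent.Run7.h142.LT.FamDefs
import Pool.Agent.Run7.h142.GT.TateDefs

/-!
# The lattice of the linear relations between the valuations of Weil numbers: definitions (helper142)
-/

set_option autoImplicit false

open CategoryTheory AlgebraicGeometry NumberField

universe u v

namespace Pool.Agent.Run7.h142.GT

open Pool.Agent.H914 Pool.Agent.H914.VarClass Pool.Agent.H914.VarClass.Obj
  Pool.Agent.H914.WeilCohomology Pool.Agent.H281R3.HT Pool.Agent.W534 Pool.Agent.TH121.KT
  Pool.Agent.Run7.h142.LT

/-- The numbers `α j` have complex absolute values one, and they are units at all finite places that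
do not divide `p`. If `d j` is even then `α j` is not a unit at all places over `p` (so it is not a
root of unity). -/
structure IsPNumber (p : ℕ) [Fact p.Prime] {κ : Type} {E : κ → Type} [∀ k, Field (E k)] {s : ℕ}
    {f : Fin s → κ} (α : ∀ j, E (f j)) (d : Fin s → ℕ) : Prop where
  unitary : ∀ j (φ : E (f j) →+* ℂ), ‖φ (α j)‖ = 1
  unit : ∀ (ℓ : ℕ) [Fact ℓ.Prime], ℓ ≠ p → ∀ j (τ : E (f j) →+* PadicAlgCl ℓ), ‖τ (α j)‖ = 1
  not_unit : ∀ j, Even (d j) → ∃ τ : E (f j) →+* PadicAlgCl p, ‖τ (α j)‖ ≠ 1

/-- The normalized valuation of the number `α j`: the logarithm of its absolute value under an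
embedding in the algebraic closure of `ℚ_p`, divided by `n j`. -/
noncomputable def slope (p : ℕ) [Fact p.Prime] {κ : Type} {E : κ → Type} [∀ k, Field (E k)] {s : ℕ}
    {f : Fin s → κ} (α : ∀ j, E (f j)) (n : Fin s → ℕ) (j : Fin s)
    (τ : ∀ k, E k →+* PadicAlgCl p) : ℝ :=
  Real.log ‖τ (f j) (α j)‖ / n j

/-- The group of the linear relations, with integral coefficients, between the normalized valuations
of the numbers `α j` which belong to the field `E k` (the coefficients of the other ones are zero). -/
def relations (p : ℕ) [Fact p.Prime] {κ : Type} {E : κ → Type} [∀ k, Field (E k)] {s : ℕ}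
    {f : Fin s → κ} (α : ∀ j, E (f j)) (n : Fin s → ℕ) (k : κ) : AddSubgroup (Fin s → ℤ) where
  carrier := {c | (∀ j, f j ≠ k → c j = 0) ∧
    ∀ τ : (∀ k, E k →+* PadicAlgCl p), ∑ j, (c j : ℝ) * slope p α n j τ = 0}
  zero_mem' := ⟨fun _ _ => rfl, fun _ => by simp⟩
  add_mem' := by
    rintro a b ⟨ha, ha'⟩ ⟨hb, hb'⟩
    refine ⟨fun j hj => ?_, fun τ => ?_⟩
    · rw [Pi.add_apply, ha j hj, hb j hj, add_zero]
    · have h1 : ∀ j, ((((a + b) j : ℤ) : ℝ)) * slope p α n j τ =
          (a j : ℝ) * slope p α n j τ + (b j : ℝ) * slope p α n j τ := by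
        intro j
        rw [Pi.add_apply, Int.cast_add, add_mul]
      rw [Finset.sum_congr rfl fun j _ => h1 j, Finset.sum_add_distrib, ha', hb', add_zero]
  neg_mem' := by
    rintro a ⟨ha, ha'⟩
    refine ⟨fun j hj => ?_, fun τ => ?_⟩
    · rw [Pi.neg_apply, ha j hj, neg_zero]
    · have h1 : ∀ j, ((((-a) j : ℤ) : ℝ)) * slope p α n j τ =
          -((a j : ℝ) * slope p α n j τ) := by
        intro j
        rw [Pi.neg_apply, Int.cast_neg, neg_mul]
      rw [Finset.sum_congr rfl fun j _ => h1 j, Finset.sum_neg_distrib, ha', neg_zero]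

/-- The list with `|c j|` entries `j` for each `j`. -/
def listOf {s : ℕ} (c : Fin s → ℤ) : List (Fin s) :=
  (List.finRange s).flatMap fun j => List.replicate (c j).natAbs j

/-- The product of `X j` and of the varieties in the list. -/
noncomputable def prodOf {k : Type u} [Field k] {𝒱 : VarClass k} {s : ℕ} (X : Fin s → 𝒱.Obj) :
    Fin s → List (Fin s) → 𝒱.Obj
  | j, [] => X j
  | j, i :: l => (X j).prod (prodOf X i l)

/-- The number `∑ |c j| * d j`. -/
def degOf {s : ℕ} (d : Fin s → ℕ) (c : Fin s → ℤ) : ℕ := ∑ j, (c j).natAbs * d j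

/-- The vector `x` is in `G`, and it is an eigenvector of `f` whose eigenvalue is, up to a root of
unity, the product of `p ^ (n / 2)` and of an `e`-th root of `β`. -/
def IsEigen {F M : Type*} [Field F] [AddCommGroup M] [Module F M] (G : Submodule F M)
    (f : M → M) (p n e : ℕ) (β : F) (x : M) : Prop :=
  x ∈ G ∧ IsWeilVector f p n e β x

/-- The algebra is generated by the subspaces `A` and `G`, and `G` is spanned by elements of `A` and by
eigenvectors for the numbers `β i` (`IsEigen`), all of which occur. For some `z` in `A` the form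
`t (x * y * z)` in the elements `x`, `y` of `G` is nondegenerate. -/
structure IsWeilAlgebra {F M I : Type*} [Field F] [Ring M] [Algebra F M] (A G : Submodule F M)
    (t : M →ₗ[F] F) (f : M → M) (p n e : ℕ) (β : I → F) : Prop where
  generated : ∀ x, x ∈ Algebra.adjoin F ((A : Set M) ∪ G)
  spanned : G ≤ A ⊔ Submodule.span F {x | ∃ i, IsEigen G f p n e (β i) x}
  occurs : ∀ i, ∃ x, x ≠ 0 ∧ IsEigen G f p n e (β i) x
  perfect : ∃ z ∈ A, ∀ x ∈ G, x ≠ 0 → ∃ y ∈ G, t (x * y * z) ≠ 0

/-- For each of the varieties `X j` the cohomology is generated, as an algebra, by classes of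
algebraic cycles and by the cohomology in the degree `d j`, and this is spanned by classes of
algebraic cycles and by eigenvectors of the Frobenius endomorphism whose eigenvalues are, up to
roots of unity, `q ^ (d j / 2)` times `e j`-th roots of conjugates of the number `α j`
(`q = p ^ Φ.e (X j)` is the number of elements of the field of definition of the Frobenius
endomorphism). All conjugates occur. Moreover, for some combination of algebraic classes the product
with it defines a nondegenerate form on the cohomology in the degree `d j` (for instance, by the hard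
Lefschetz theorem, for the power with exponent `dim (X j) - d j` of a hyperplane section; by
Poincaré duality, for the class of `X j` itself if `d j = dim (X j)`). -/
structure HaveWeilNumbers {k : Type u} [Field k] {𝒱 : VarClass k} {ops : CycleOps 𝒱}
    {W : WeilCohomology.{u, v} ops} {p : ℕ} (Φ : FrobSystem W p) {s : ℕ} {K : Fin s → Type}
    [∀ j, Field (K j)] (α : ∀ j, K j) (X : Fin s → 𝒱.Obj) (d e : Fin s → ℕ) : Prop where
  pos : ∀ j, 0 < e j
  weil : ∀ j, IsWeilAlgebra (algSpan W (X j)) (W.gr (X j) (d j)) (W.tr (X j))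
    (W.map (Φ.Fr (X j))) p (Φ.e (X j) * d j) (e j) fun σ : K j →+* W.K => σ (α j)

/-- The degrees `e j * Φ.e (X j)` by which the valuations are normalized. -/
noncomputable def degs {k : Type u} [Field k] {𝒱 : VarClass k} {ops : CycleOps 𝒱}
    {W : WeilCohomology.{u, v} ops} {p : ℕ} (Φ : FrobSystem W p) {s : ℕ} (X : Fin s → 𝒱.Obj)
    (e : Fin s → ℕ) (j : Fin s) : ℕ := e j * Φ.e (X j)

/-- The Tate conjecture, in codimension `n`, for the product of the varieties in a nonempty list. -/
def TateForList {k : Type u} [Field k] {𝒱 : VarClass k} {ops : CycleOps 𝒱}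
    {W : WeilCohomology.{u, v} ops} {p : ℕ} (Φ : FrobSystem W p) {s : ℕ} (X : Fin s → 𝒱.Obj)
    (l : List (Fin s)) (n : ℕ) : Prop :=
  ∀ i l', l = i :: l' → TateTo Φ (prodOf X i l') 1 n

/-- The Tate conjecture holds: for all `X j × X j` in codimension `d j`; for each relation `c` of even
degree `deg c = ∑ |c j| d j` in one of the sets `B k`, for the product `X_c` of `|c j|` copies of each
`X j` in codimension `deg c / 2`; and for two relations `c`, `c'` of odd degree in these sets, for
the product `X_c × X_c'` in codimension `(deg c + deg c') / 2`. -/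
structure TateForGenerators {k : Type u} [Field k] {𝒱 : VarClass k} {ops : CycleOps 𝒱}
    {W : WeilCohomology.{u, v} ops} {p : ℕ} (Φ : FrobSystem W p) {κ : Type} {s : ℕ}
    (X : Fin s → 𝒱.Obj) (d : Fin s → ℕ) (B : κ → Set (Fin s → ℤ)) : Prop where
  pairs : ∀ j, TateTo Φ ((X j).prod (X j)) 1 (d j)
  even : ∀ k, ∀ c ∈ B k, Even (degOf d c) → TateForList Φ X (listOf c) (degOf d c / 2)
  odd : ∀ k k', ∀ c ∈ B k, ∀ c' ∈ B k', Odd (degOf d c) → Odd (degOf d c') →
    TateForList Φ X (listOf c ++ listOf c') ((degOf d c + degOf d c') / 2)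

end Pool.Agent.Run7.h142.GT
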