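import Pool.Agent.Run7.h142.GT.Defs

/-!
# The rank of the valuations (helper142)
-/

set_option autoImplicit false

universe u v

namespace Pool.Agent.Run7.h142.GT

/-- The dimension of the vector space over `ℚ` which is generated by the set. -/
noncomputable def rankOf {V : Type*} [AddCommGroup V] [Module ℚ V] (S : Set V) : ℕ :=
  Module.finrank ℚ (Submodule.span ℚ S)

/-- The rank over `ℚ` of the normalized valuations `slope p α n j` of the numbers `α j` in the field
`E k`, as functions of the embedding. -/
noncomputable def slopeRank (p : ℕ) [Fact p.Prime] {κ : Type} {E : κ → Type} [∀ k, Field (E k)]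
    {s : ℕ} {f : Fin s → κ} (α : ∀ j, E (f j)) (n : Fin s → ℕ) (k : κ) : ℕ :=
  rankOf (slope p α n '' {j | f j = k})

/-- For each field `E k` there is an embedding in the algebraic closure of `ℚ_p` for which the
normalized valuations of all numbers `α j` in `E k`, divided by `log p`, differ from `d j / 2` by
integers. (For the Weil numbers `π` over `𝔽_q` of a variety this means that the valuations of the
numbers `π` for this embedding, normalized by `v (q) = 1`, are integers; for instance, a variety which
is ordinary at one place.) -/
def HasIntegralPlaces (p : ℕ) [Fact p.Prime] {κ : Type} {E : κ → Type} [∀ k, Field (E k)]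
    {s : ℕ} {f : Fin s → κ} (α : ∀ j, E (f j)) (d n : Fin s → ℕ) : Prop :=
  ∀ k, ∃ τ : (∀ k, E k →+* PadicAlgCl p), ∀ j, f j = k →
    ∃ m : ℤ, slope p α n j τ = (m + d j / 2) * Real.log p

end Pool.Agent.Run7.h142.GT
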