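import Pool.Agent.TH121.KT.Word2
import Pool.Agent.Run7.h142.GT.Defs

/-!
# Words in eigenvectors of arbitrary degrees (helper142)

Adapted from the starting files `TH121/KT/Word` and `TH121/KT/Word2` (eigenvectors in the middle
degree).
-/

set_option autoImplicit false
set_option linter.unusedSectionVars false

open CategoryTheory AlgebraicGeometry NumberField
open scoped TensorProduct

universe u v

namespace Pool.Agent.Run7.h142.GT

open Pool.Agent.H914 Pool.Agent.H914.VarClass Pool.Agent.H914.VarClass.Obj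
  Pool.Agent.H914.WeilCohomology Pool.Agent.H281R3.HT Pool.Agent.W552 Pool.Agent.W534
  Pool.Agent.W458.RK Pool.Agent.W458.MF Pool.Agent.TH132.A Pool.Agent.W536.RR
  Pool.Agent.TH121.KT Pool.Agent.Run7.h142.LT

variable {k : Type u} [Field k] {𝒱 : VarClass k} {ops : CycleOps 𝒱}
  {W : WeilCohomology.{u, v} ops} {p : ℕ} {Φ : FrobSystem W p}
  {r : ℕ} {X : Fin r → 𝒱.Obj} {d e : Fin r → ℕ} {K : Fin r → Type} [∀ i, Field (K i)]
  {α : ∀ i, K i} {Z Z' : 𝒱.Obj}

/-- an eigenvector for the conjugate given by `σ` -/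
def IsL (Φ : FrobSystem W p) (X : 𝒱.Obj) (d e : ℕ) {F : Type} [Field F] (α : F) (σ : F →+* W.K)
    (x : W.H X) : Prop :=
  x ∈ W.gr X d ∧ IsWeilVector (W.map (Φ.Fr X)) p (Φ.e X * d) e (σ α) x

/-- a pulled back eigenvector -/
structure Lt (Φ : FrobSystem W p) (X : Fin r → 𝒱.Obj) (d e : Fin r → ℕ) (α : ∀ i, K i)
    (Z : 𝒱.Obj) where
  i : Fin r
  f : Z ⟶ X i
  σ : K i →+* W.K
  x : W.H (X i)
  h : IsL Φ (X i) (d i) (e i) (α i) σ x

namespace Lt

/-- the class -/
noncomputable def val (l : Lt Φ X d e α Z) : W.H Z := W.map l.f l.x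

/-- the label -/
def label (l : Lt Φ X d e α Z) : Σ i, (K i →+* W.K) := ⟨l.i, l.σ⟩

/-- pull-back of letters -/
noncomputable def pull (g : Z' ⟶ Z) (l : Lt Φ X d e α Z) : Lt Φ X d e α Z' :=
  ⟨l.i, g ≫ l.f, l.σ, l.x, l.h⟩

lemma val_pull (g : Z' ⟶ Z) (l : Lt Φ X d e α Z) : (l.pull g).val = W.map g l.val :=
  W.map_comp g l.f l.x

lemma val_mem (l : Lt Φ X d e α Z) : l.val ∈ W.gr Z (d l.i) := W.map_mem _ l.h.1

/-- the eigenvalue at the level `s` -/
def At (l : Lt Φ X d e α Z) (s M : ℕ) : Prop :=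
  ∃ ω : W.K, frob Φ Z s l.val = ω • l.val ∧
    ω ^ (2 * (e l.i * Φ.e (X l.i)) * M) =
      (card Φ Z s : W.K) ^ (d l.i * (e l.i * Φ.e (X l.i)) * M) *
        (l.σ (α l.i)) ^ (2 * (s * Φ.e Z) * M)

lemma At.mul {l : Lt Φ X d e α Z} {s M : ℕ} (h : l.At s M) (m : ℕ) : l.At s (M * m) := by
  obtain ⟨ω, h1, h2⟩ := h
  refine ⟨ω, h1, ?_⟩
  rw [← mul_assoc, pow_mul, h2, mul_pow, ← pow_mul, ← pow_mul, mul_assoc _ M m, mul_assoc _ M m]

lemma exists_at (l : Lt Φ X d e α Z) : ∃ a M : ℕ, 0 < a ∧ 0 < M ∧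
    ∀ t, 0 < t → l.At (a * t) M := by
  obtain ⟨i, f, σ, x, hx, μ, N, hN, hμ, hrel⟩ := l
  obtain ⟨a, ha, h⟩ := exists_comm Φ f
  refine ⟨a, N, ha, hN, fun t ht => ?_⟩
  obtain ⟨s', hs', hss, hcomm⟩ := h t ht
  refine ⟨μ ^ s', ?_, ?_⟩
  · change frob Φ Z (a * t) (W.map f x) = _ • W.map f x
    rw [hcomm, frob_pow_eq']
    have h1 : ∀ s, ((W.map (Φ.Fr (X i))).toLinearMap ^ s) x = μ ^ s • x := by
      intro s
      induction s with
      | zero => rw [pow_zero, pow_zero, one_smul]; rfl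
      | succ s ih =>
        rw [pow_succ', Module.End.mul_apply, ih, map_smul]
        change μ ^ s • W.map (Φ.Fr (X i)) x = _
        rw [hμ, smul_smul, pow_succ]
    rw [h1, map_smul]
  · change (μ ^ s') ^ (2 * (e i * Φ.e (X i)) * N) =
      (card Φ Z (a * t) : W.K) ^ (d i * (e i * Φ.e (X i)) * N) *
        (σ (α i)) ^ (2 * (a * t * Φ.e Z) * N)
    have h1 : s' * (2 * (e i * Φ.e (X i)) * N) = (2 * e i * N) * (s' * Φ.e (X i)) := by ring
    rw [← pow_mul, h1, pow_mul, hrel, hss, mul_pow, ← pow_mul, ← pow_mul, card_pow]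
    congr 1
    · congr 1
      ring
    · congr 1
      ring

end Lt

/-- the class of a list of letters -/
noncomputable def wval (L : List (Lt Φ X d e α Z)) : W.H Z := (L.map Lt.val).prod

lemma wval_nil : wval ([] : List (Lt Φ X d e α Z)) = 1 := rfl

lemma wval_cons (a : Lt Φ X d e α Z) (L : List (Lt Φ X d e α Z)) :
    wval (a :: L) = a.val * wval L := by
  rw [wval, List.map_cons, List.prod_cons]
  rfl

lemma wval_append (L L' : List (Lt Φ X d e α Z)) :
    wval (L ++ L') = wval L * wval L' := by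
  rw [wval, List.map_append, List.prod_append]
  rfl

lemma wval_pull (g : Z' ⟶ Z) (L : List (Lt Φ X d e α Z)) :
    wval (L.map (Lt.pull g)) = W.map g (wval L) := by
  induction L with
  | nil => rw [List.map_nil, wval_nil, wval_nil, map_one]
  | cons a L ih => rw [List.map_cons, wval_cons, wval_cons, map_mul, ih, Lt.val_pull]

/-- the degree of a word -/
lemma wval_gr (L : List (Lt Φ X d e α Z)) :
    wval L ∈ W.gr Z (L.map fun l => d l.i).sum := by
  induction L with
  | nil => exact W.one_mem Z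
  | cons a L ih =>
    rw [wval_cons, List.map_cons, List.sum_cons]
    exact W.mul_mem a.val_mem ih

/-- permutations of words -/
lemma wval_perm {L L' : List (Lt Φ X d e α Z)} (h : L.Perm L') :
    ∃ c : W.K, wval L = c • wval L' := by
  induction h with
  | nil => exact ⟨1, (one_smul _ _).symm⟩
  | cons x _ ih =>
    obtain ⟨c, hc⟩ := ih
    exact ⟨c, by rw [wval_cons, wval_cons, hc, mul_smul_comm]⟩
  | swap x y l =>
    refine ⟨(-1) ^ (d y.i * d x.i), ?_⟩
    rw [wval_cons, wval_cons, wval_cons, wval_cons, ← mul_assoc,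
      W.comm y.val_mem x.val_mem, smul_mul_assoc, mul_assoc]
  | trans _ _ ih1 ih2 =>
    obtain ⟨c, hc⟩ := ih1
    obtain ⟨d, hd⟩ := ih2
    exact ⟨c * d, by rw [hc, hd, smul_smul]⟩

/-- the eigenvalue of a word, with the exact exponent -/
lemma word_eig {t M : ℕ} (L : List (Lt Φ X d e α Z)) (hL : ∀ l ∈ L, l.At t M) :
    ∃ ω : W.K, frob Φ Z t (wval L) = ω • wval L ∧
      ω ^ (2 * (∏ j, (e j * Φ.e (X j))) * M) =
        (card Φ Z t : W.K) ^ ((L.map fun l => d l.i).sum * (∏ j, (e j * Φ.e (X j))) * M) *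
        (L.map fun l => (l.σ (α l.i)) ^ expo Φ X e Z t M l.i).prod := by
  induction L with
  | nil =>
    refine ⟨1, ?_, ?_⟩
    · rw [wval_nil, frob_one, one_smul]
    · rw [one_pow, List.map_nil, List.map_nil, List.sum_nil, zero_mul, zero_mul, pow_zero,
        List.prod_nil, mul_one]
  | cons a L ih =>
    obtain ⟨ω, h1, h2⟩ := ih fun l hl => hL l (List.mem_cons_of_mem _ hl)
    obtain ⟨ω', h3, h4⟩ := hL a List.mem_cons_self
    let E : ℕ := ∏ j ∈ Finset.univ.erase a.i, (e j * Φ.e (X j))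
    have hE : ∏ j, (e j * Φ.e (X j)) = e a.i * Φ.e (X a.i) * E :=
      (Finset.mul_prod_erase Finset.univ (fun j => e j * Φ.e (X j)) (Finset.mem_univ a.i)).symm
    refine ⟨ω' * ω, ?_, ?_⟩
    · rw [wval_cons, frob_mul_apply, h1, h3, smul_mul_smul_comm]
    · rw [mul_pow, h2, List.map_cons, List.map_cons, List.sum_cons, List.prod_cons]
      have h5 : 2 * (∏ j, (e j * Φ.e (X j))) * M = 2 * (e a.i * Φ.e (X a.i)) * M * E := by
        rw [hE]; ring
      rw [h5, pow_mul, h4, mul_pow, ← pow_mul, ← pow_mul]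
      have h6 : (d a.i + (L.map fun l => d l.i).sum) *
          (∏ j, (e j * Φ.e (X j))) * M = d a.i * (e a.i * Φ.e (X a.i)) * M * E +
          (L.map fun l => d l.i).sum * (∏ j, (e j * Φ.e (X j))) * M := by
        rw [hE]; ring
      rw [h6, pow_add]
      change _ = _ * ((a.σ (α a.i)) ^ (2 * (t * Φ.e Z) * M * E) * _)
      ring

/-- a good level for a word -/
lemma word_lev (L : List (Lt Φ X d e α Z)) : ∃ a M : ℕ, 0 < a ∧ 0 < M ∧
    ∀ t, 0 < t → ∀ l ∈ L, l.At (a * t) M := by
  induction L with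
  | nil => exact ⟨1, 1, one_pos, one_pos, fun t _ l hl => absurd hl List.not_mem_nil⟩
  | cons b L ih =>
    obtain ⟨a, M, ha, hM, h⟩ := ih
    obtain ⟨a', M', ha', hM', h'⟩ := b.exists_at
    refine ⟨a * a', M * M', Nat.mul_pos ha ha', Nat.mul_pos hM hM', fun t ht l hl => ?_⟩
    rcases List.mem_cons.1 hl with rfl | hl
    · have := (h' (a * t) (Nat.mul_pos ha ht)).mul M
      rwa [show a' * (a * t) = a * a' * t by ring, mul_comm M' M] at this
    · have := (h (a' * t) (Nat.mul_pos ha' ht) l hl).mul M'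
      rwa [← mul_assoc] at this

section Count

variable [∀ i, NumberField (K i)]

open Classical in
/-- the multiplicities -/
noncomputable def mlt (L : List (Lt Φ X d e α Z)) (i : Fin r) (σ : K i →+* W.K) : ℕ :=
  (L.map Lt.label).count ⟨i, σ⟩

/-- a product over a list of letters -/
lemma prod_lts (w : Fin r → ℕ) (L : List (Lt Φ X d e α Z)) :
    (L.map fun l => (l.σ (α l.i)) ^ w l.i).prod = letterProd α w (mlt L) := by
  classical
  have h1 : (L.map fun l => (l.σ (α l.i)) ^ w l.i) =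
      (L.map Lt.label).map fun x : Σ i, (K i →+* W.K) => (x.2 (α x.1)) ^ w x.1 := by
    rw [List.map_map]
    rfl
  rw [h1, Finset.prod_list_map_count, Finset.prod_subset (Finset.subset_univ _),
    Fintype.prod_sigma]
  · unfold letterProd
    refine Finset.prod_congr rfl fun i _ => Finset.prod_congr rfl fun σ _ => ?_
    rw [← pow_mul, mlt]
  · intro x _ hx
    rw [List.mem_toFinset] at hx
    rw [List.count_eq_zero_of_not_mem hx, pow_zero]

end Count

/-- the words -/
def Wds (Φ : FrobSystem W p) (X : Fin r → 𝒱.Obj) (d e : Fin r → ℕ) (α : ∀ i, K i)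
    (Z : 𝒱.Obj) : Set (W.H Z) :=
  {v | ∃ (L : List (Lt Φ X d e α Z)) (j : ℕ) (c : Z.Cycles), Z.IsCyc j c ∧
    v = wval L * W.cl Z c}

/-- the words which are eigenvectors at the level `s` -/
def GoodWds (Φ : FrobSystem W p) (X : Fin r → 𝒱.Obj) (d e : Fin r → ℕ) (α : ∀ i, K i)
    (Z : 𝒱.Obj) (s : ℕ) : Set (W.H Z) :=
  {v | ∃ (L : List (Lt Φ X d e α Z)) (j M : ℕ) (c : Z.Cycles), 0 < M ∧ Z.IsCyc j c ∧
    (∀ l ∈ L, l.At s M) ∧
    frob Φ Z s (W.cl Z c) = (card Φ Z s : W.K) ^ j • W.cl Z c ∧ v = wval L * W.cl Z c}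

/-- a linear combination of words is a combination of good words for a large level -/
lemma span_gd {z : W.H Z} (hz : z ∈ Submodule.span W.K (Wds Φ X d e α Z)) :
    ∃ t₀, 0 < t₀ ∧ ∀ t, 0 < t → z ∈ Submodule.span W.K (GoodWds Φ X d e α Z (t₀ * t)) := by
  induction hz using Submodule.span_induction with
  | mem v hv =>
    obtain ⟨L, j, c, hc, rfl⟩ := hv
    obtain ⟨a, M, ha, hM, h⟩ := word_lev L
    obtain ⟨b, hb, h1⟩ := Φ.cyc hc
    have h1 : frob Φ Z b (W.cl Z c) = (card Φ Z b : W.K) ^ j • W.cl Z c := by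
      rw [card_pow]
      exact h1
    refine ⟨a * b, Nat.mul_pos ha hb, fun t ht => Submodule.subset_span
      ⟨L, j, M, c, hM, hc, ?_, ?_, rfl⟩⟩
    · rw [mul_assoc]
      exact h (b * t) (Nat.mul_pos hb ht)
    · rw [show a * b * t = b * (a * t) by ring]
      exact eig_pow h1 (a * t)
  | zero => exact ⟨1, one_pos, fun t _ => Submodule.zero_mem _⟩
  | add x y _ _ hx hy =>
    obtain ⟨a, ha, h⟩ := hx
    obtain ⟨b, hb, h'⟩ := hy
    refine ⟨a * b, Nat.mul_pos ha hb, fun t ht => Submodule.add_mem _ ?_ ?_⟩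
    · rw [mul_assoc]
      exact h _ (Nat.mul_pos hb ht)
    · rw [show a * b * t = b * (a * t) by ring]
      exact h' _ (Nat.mul_pos ha ht)
  | smul c x _ hx =>
    obtain ⟨a, ha, h⟩ := hx
    exact ⟨a, ha, fun t ht => Submodule.smul_mem _ _ (h t ht)⟩

lemma alg_wds {z : W.H Z} (hz : z ∈ algSpan W Z) :
    z ∈ Submodule.span W.K (Wds Φ X d e α Z) := by
  refine algSpan_induction (p := fun z => z ∈ Submodule.span W.K (Wds Φ X d e α Z))
    (Submodule.zero_mem _) (fun a b ha hb => Submodule.add_mem _ ha hb)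
    (fun t a ha => Submodule.smul_mem _ _ ha) (fun j c hc => Submodule.subset_span
      ⟨[], j, c, hc, ?_⟩) hz
  rw [wval_nil, one_mul]

/-- products of words -/
lemma mul_wds {a b : W.H Z}
    (ha : a ∈ Submodule.span W.K (Wds Φ X d e α Z))
    (hb : b ∈ Submodule.span W.K (Wds Φ X d e α Z)) :
    a * b ∈ Submodule.span W.K (Wds Φ X d e α Z) := by
  induction ha using Submodule.span_induction with
  | mem v hv =>
    induction hb using Submodule.span_induction with
    | mem u hu =>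
      obtain ⟨L, j, c, hc, rfl⟩ := hv
      obtain ⟨L', j', c', hc', rfl⟩ := hu
      refine Submodule.subset_span ⟨L ++ L', j + j', ops.mul c c', ops.mul_mem hc hc', ?_⟩
      rw [wval_append, W.cl_mul, mul_assoc, ← mul_assoc (W.cl Z c),
        algSpan_comm (cl_mem_algSpan hc) (wval L')]
      simp only [mul_assoc]
    | zero => rw [mul_zero]; exact Submodule.zero_mem _
    | add x y _ _ hx hy => rw [mul_add]; exact Submodule.add_mem _ hx hy
    | smul c x _ hx => rw [mul_smul_comm]; exact Submodule.smul_mem _ _ hx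
  | zero => rw [zero_mul]; exact Submodule.zero_mem _
  | add x y _ _ hx hy => rw [add_mul]; exact Submodule.add_mem _ hx hy
  | smul c x _ hx => rw [smul_mul_assoc]; exact Submodule.smul_mem _ _ hx

/-- pull-backs of words -/
lemma pull_wds (g : Z' ⟶ Z) {a : W.H Z} (ha : a ∈ Submodule.span W.K (Wds Φ X d e α Z)) :
    W.map g a ∈ Submodule.span W.K (Wds Φ X d e α Z') := by
  induction ha using Submodule.span_induction with
  | mem v hv =>
    obtain ⟨L, j, c, hc, rfl⟩ := hv
    refine Submodule.subset_span ⟨L.map (Lt.pull g), j, ops.pull g c, ops.pull_mem _ hc, ?_⟩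
    rw [wval_pull, W.cl_pull, map_mul]
  | zero => rw [map_zero]; exact Submodule.zero_mem _
  | add x y _ _ hx hy => rw [map_add]; exact Submodule.add_mem _ hx hy
  | smul c x _ hx => rw [map_smul]; exact Submodule.smul_mem _ _ hx

/-- the cohomology in the degree `d j` -/
lemma gr_sup (h : HaveWeilNumbers Φ α X d e) (j : Fin r) {x : W.H (X j)}
    (hx : x ∈ W.gr (X j) (d j)) : x ∈ algSpan W (X j) ⊔
      Submodule.span W.K {x | ∃ σ, IsL Φ (X j) (d j) (e j) (α j) σ x} :=
  (h.weil j).spanned hx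

/-- **The cohomology of the products is spanned by words.** -/
theorem span_wds (h : HaveWeilNumbers Φ α X d e) (hZ : IsProduct W X Z) (z : W.H Z) :
    z ∈ Submodule.span W.K (Wds Φ X d e α Z) := by
  induction hZ with
  | alg h => exact alg_wds (h z)
  | base i =>
    have h1 := (h.weil i).generated z
    induction h1 using Algebra.adjoin_induction with
    | mem x hx =>
      rcases hx with hx | hx
      · exact alg_wds hx
      · obtain ⟨a, ha, b, hb, rfl⟩ := Submodule.mem_sup.1 (gr_sup h i hx)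
        refine Submodule.add_mem _ (alg_wds ha) ?_
        refine Submodule.span_mono ?_ hb
        rintro x ⟨σ, hx⟩
        refine ⟨[⟨i, 𝟙 (X i), σ, x, hx⟩], 0, (X i).V.fundCycle, (X i).V.fundCycle_mem, ?_⟩
        rw [wval_cons, wval_nil, mul_one, W.cl_fund, mul_one]
        exact (W.map_id (X i) x).symm
    | algebraMap c =>
      rw [Algebra.algebraMap_eq_smul_one]
      exact Submodule.smul_mem _ _ (alg_wds one_mem_algSpan)
    | add x y _ _ hx hy => exact Submodule.add_mem _ hx hy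
    | mul x y _ _ hx hy => exact mul_wds hx hy
  | prod hY hZ ihY ihZ =>
    rename_i Y Z
    obtain ⟨t, rfl⟩ := (W.kunneth Y Z).2 z
    induction t using TensorProduct.induction_on with
    | zero => rw [map_zero]; exact Submodule.zero_mem _
    | add x y hx hy => rw [map_add]; exact Submodule.add_mem _ hx hy
    | tmul x y => exact mul_wds (pull_wds _ (ihY x)) (pull_wds _ (ihZ y))

end Pool.Agent.Run7.h142.GT
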