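import Pool.Agent.Run7.h142.GT.AlgNet

/-!
# Balanced words are algebraic (helper142)
-/

set_option autoImplicit false
set_option linter.unusedSectionVars false

open CategoryTheory AlgebraicGeometry NumberField
open scoped TensorProduct
open Pool.Agent.W552 hiding cj cj_cj

universe u v

namespace Pool.Agent.Run7.h142.GT

open Pool.Agent.H914 Pool.Agent.H914.VarClass Pool.Agent.H914.VarClass.Obj
  Pool.Agent.H914.WeilCohomology Pool.Agent.H281R3.HT Pool.Agent.W534
  Pool.Agent.W458.RK Pool.Agent.W458.MF Pool.Agent.TH132.A Pool.Agent.W536.RR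
  Pool.Agent.TH121.KT Pool.Agent.Y138.TU Pool.Agent.Run7.h142.LT

section lists

variable {s : ℕ}

/-- sums over the list of an integral vector -/
theorem sum_listOf' {A : Type*} [AddCommMonoid A] (g : Fin s → A) (c : Fin s → ℤ) :
    ((listOf c).map g).sum = ∑ j, (c j).natAbs • g j := by
  unfold listOf
  have h1 : ∀ l : List (Fin s), ((l.flatMap fun j => List.replicate (c j).natAbs j).map g).sum =
      (l.map fun j => (c j).natAbs • g j).sum := by
    intro l
    induction l with
    | nil => rfl
    | cons a l ih =>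
      rw [List.flatMap_cons, List.map_append, List.sum_append, ih, List.map_replicate,
        List.sum_replicate, List.map_cons, List.sum_cons]
  rw [h1, ← Fin.sum_univ_def]

theorem sum_listOf (d : Fin s → ℕ) (c : Fin s → ℤ) : ((listOf c).map d).sum = degOf d c := by
  rw [sum_listOf']
  rfl

end lists

variable {k : Type u} [Field k] {𝒱 : VarClass k} {ops : CycleOps 𝒱}
  {W : WeilCohomology.{u, v} ops} {p : ℕ} [Fact p.Prime] {Φ : FrobSystem W p}
  {κ : Type} {E : κ → Type} [∀ k, Field (E k)] [∀ k, NumberField (E k)] [∀ k, IsCMField (E k)]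
  {s : ℕ} {f : Fin s → κ} {α : ∀ j, E (f j)} {X : Fin s → 𝒱.Obj} {d e : Fin s → ℕ} {Z : 𝒱.Obj}

section net

variable {S : ∀ k, E k →+* W.K}

/-- the labels of an integral vector -/
noncomputable def lat (f : Fin s → κ) (S : ∀ k, E k →+* W.K) (c : Fin s → ℤ) :
    List (Σ j, (E (f j) →+* W.K)) :=
  (listOf c).map fun j => ⟨j, if 0 ≤ c j then S (f j) else cj (S (f j))⟩

theorem dg_lat (c : Fin s → ℤ) : dg d (lat f S c) = degOf d c := by
  unfold dg lat
  rw [List.map_map, ← sum_listOf]
  rfl

theorem netL_single (i : Fin s) (τ : E (f i) →+* W.K) (x : Σ j, (E (f j) →+* W.K)) :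
    netL [(⟨i, τ⟩ : Σ j, (E (f j) →+* W.K))] x =
      if h : x.1 = i then dz (h ▸ x.2) τ else 0 := by
  classical
  obtain ⟨j, σ⟩ := x
  unfold netL
  rw [List.count_singleton, List.count_singleton]
  change (((if (⟨i, τ⟩ : Σ j, (E (f j) →+* W.K)) == ⟨j, σ⟩ then 1 else 0 : ℕ)) : ℤ) -
    ((if (⟨i, τ⟩ : Σ j, (E (f j) →+* W.K)) == ⟨j, cj σ⟩ then 1 else 0 : ℕ) : ℤ) = _
  by_cases h : j = i
  · subst h
    rw [dif_pos rfl]
    unfold dz
    have h1 : ((⟨j, τ⟩ : Σ j, (E (f j) →+* W.K)) == ⟨j, σ⟩) = decide (σ = τ) := by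
      rw [Bool.eq_iff_iff, beq_iff_eq, decide_eq_true_eq]
      constructor
      · intro h
        exact (eq_of_heq (Sigma.mk.inj_iff.1 h).2).symm
      · rintro rfl
        rfl
    have h2 : ((⟨j, τ⟩ : Σ j, (E (f j) →+* W.K)) == ⟨j, cj σ⟩) = decide (σ = cj τ) := by
      rw [Bool.eq_iff_iff, beq_iff_eq, decide_eq_true_eq]
      constructor
      · intro h
        have h3 : τ = cj σ := eq_of_heq (Sigma.mk.inj_iff.1 h).2
        rw [h3, cj_cj]
      · intro h
        rw [h, cj_cj]
    rw [h1, h2]
    simp only [decide_eq_true_eq]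
    push_cast
    rfl
  · rw [dif_neg h]
    have h1 : ((⟨i, τ⟩ : Σ j, (E (f j) →+* W.K)) == ⟨j, σ⟩) = false := by
      rw [beq_eq_false_iff_ne]
      intro h2
      exact h (congrArg Sigma.fst h2).symm
    have h2 : ((⟨i, τ⟩ : Σ j, (E (f j) →+* W.K)) == ⟨j, cj σ⟩) = false := by
      rw [beq_eq_false_iff_ne]
      intro h2
      exact h (congrArg Sigma.fst h2).symm
    rw [h1, h2]
    simp

theorem netL_map {A : Type} (g : A → Σ j, (E (f j) →+* W.K)) (l : List A) :
    netL (l.map g) = (l.map fun a => netL [g a]).sum := by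
  induction l with
  | nil => exact netL_nil
  | cons a l ih =>
    rw [List.map_cons, show g a :: l.map g = [g a] ++ l.map g from rfl, netL_append, ih,
      List.map_cons, List.sum_cons]

/-- the coefficients of the labels of a vector -/
theorem netL_lat (S : ∀ k, E k →+* W.K) (c : Fin s → ℤ) (x : Σ j, (E (f j) →+* W.K)) :
    netL (lat f S c) x = c x.1 * dz x.2 (S (f x.1)) := by
  unfold lat
  rw [netL_map, sum_listOf', Finset.sum_apply, Finset.sum_eq_single x.1]
  · rw [Pi.smul_apply, netL_single, dif_pos rfl]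
    change (c x.1).natAbs • dz x.2 _ = _
    split_ifs with h
    · rw [nsmul_eq_mul, Int.natCast_natAbs, abs_of_nonneg h]
    · rw [nsmul_eq_mul, Int.natCast_natAbs, abs_of_neg (by omega), dz_cj]
      ring
  · intro j _ hj
    rw [Pi.smul_apply, netL_single, dif_neg (Ne.symm hj), smul_zero]
  · intro h
    exact absurd (Finset.mem_univ _) h

theorem netL_lat_add (S : ∀ k, E k →+* W.K) (a b : Fin s → ℤ) :
    netL (lat f S (a + b)) = netL (lat f S a ++ lat f S b) := by
  funext x
  rw [netL_append, Pi.add_apply, netL_lat, netL_lat, netL_lat, Pi.add_apply, add_mul]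

theorem netL_lat_neg (S : ∀ k, E k →+* W.K) (a : Fin s → ℤ) :
    netL (lat f S (-a)) = netL (lat f (fun k => cj (S k)) a) := by
  funext x
  rw [netL_lat, netL_lat, Pi.neg_apply, dz_cj]
  ring

theorem netL_lat_zero (S : ∀ k, E k →+* W.K) :
    netL (lat f S 0) = netL ([] : List (Σ j, (E (f j) →+* W.K))) := by
  funext x
  rw [netL_lat, netL_nil, Pi.zero_apply, zero_mul]
  rfl

theorem netAt_append (L L' : List (LL Φ X d e α Z)) (k : κ) (S : ∀ k, E k →+* W.K) :
    netAt (L ++ L') k S = netAt L k S + netAt L' k S := by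
  unfold netAt
  rw [List.map_append, List.sum_append]

theorem netAt_perm {L L' : List (LL Φ X d e α Z)} (h : L.Perm L') (k : κ)
    (S : ∀ k, E k →+* W.K) : netAt L k S = netAt L' k S := (h.map _).sum_eq

/-- the letter belongs to the pair of `S` -/
def Fits (S : ∀ k, E k →+* W.K) (l : LL Φ X d e α Z) : Prop :=
  l.σ = S (f l.i) ∨ l.σ = cj (S (f l.i))

theorem contr_not {l : LL Φ X d e α Z} {k : κ} (h : ¬ (f l.i = k ∧ Fits S l)) :
    contr k S l.label = 0 := by
  classical
  unfold contr
  change (if f l.i = k then Pi.single l.i (dz l.σ (S (f l.i))) else 0 : Fin s → ℤ) = _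
  split_ifs with h1
  · have h2 : ¬ Fits S l := fun h3 => h ⟨h1, h3⟩
    unfold Fits at h2
    push Not at h2
    rw [dz_of_ne h2.1 h2.2, Pi.single_zero]
  · rfl

/-- the coefficients of the labels of a block -/
theorem netL_block {k : κ} (G : List (LL Φ X d e α Z)) (hG : ∀ l ∈ G, f l.i = k ∧ Fits S l)
    (x : Σ j, (E (f j) →+* W.K)) :
    netL (G.map Lt.label) x = netAt G k S x.1 * dz x.2 (S (f x.1)) := by
  classical
  induction G with
  | nil =>
    rw [List.map_nil, netL_nil]
    unfold netAt
    simp
  | cons l G ih =>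
    have h1 := hG l List.mem_cons_self
    rw [List.map_cons, show l.label :: G.map Lt.label = [l.label] ++ G.map Lt.label from rfl,
      netL_append, Pi.add_apply, ih fun l hl => hG l (List.mem_cons_of_mem _ hl)]
    have h2 : netAt (l :: G) k S = contr k S l.label + netAt G k S := by
      unfold netAt
      rw [List.map_cons, List.sum_cons]
    rw [h2, Pi.add_apply, add_mul]
    congr 1
    change netL [(⟨l.i, l.σ⟩ : Σ j, (E (f j) →+* W.K))] x = _
    rw [netL_single]
    unfold contr
    change _ = (if f l.i = k then Pi.single l.i (dz l.σ (S (f l.i))) else 0 : Fin s → ℤ) x.1 * _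
    rw [if_pos h1.1]
    obtain ⟨j, σ⟩ := x
    by_cases h : j = l.i
    · subst h
      rw [dif_pos rfl]
      change dz σ l.σ = (Pi.single l.i (dz l.σ (S (f l.i))) : Fin s → ℤ) l.i *
        dz σ (S (f l.i))
      rw [Pi.single_eq_same]
      rcases h1.2 with h3 | h3
      · rw [h3, dz_self, one_mul]
      · have h4 : S (f l.i) = cj l.σ := by rw [h3, cj_cj]
        rw [h4, dz_cj, dz_cj, dz_self]
        ring
    · rw [dif_neg h]
      change 0 = (Pi.single l.i (dz l.σ (S (f l.i))) : Fin s → ℤ) j * _
      rw [Pi.single_eq_of_ne h, zero_mul]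

open Classical in
theorem netAt_filter (L : List (LL Φ X d e α Z)) (k : κ) (S : ∀ k, E k →+* W.K) :
    netAt (L.filter fun l => decide (f l.i = k ∧ Fits S l)) k S = netAt L k S := by
  induction L with
  | nil => rfl
  | cons b L ih =>
    have h2 : netAt (b :: L) k S = contr k S b.label + netAt L k S := by
      unfold netAt
      rw [List.map_cons, List.sum_cons]
    by_cases hb : f b.i = k ∧ Fits S b
    · rw [List.filter_cons_of_pos (by simpa using hb), h2, ← ih]
      unfold netAt
      rw [List.map_cons, List.sum_cons]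
    · rw [List.filter_cons_of_neg (by simpa using hb), ih, h2, contr_not hb, zero_add]

/-- a relation for one family is one for all -/
theorem bal_block {k : κ} {B : List (LL Φ X d e α Z)}
    (hB : ∀ l ∈ B, f l.i = k ∧ Fits S l)
    (hrel : netAt B k S ∈ relations p α (degs Φ X e) k) : IsBal B := by
  classical
  intro k' S'
  by_cases hk : k' = k
  · subst hk
    by_cases h1 : S' k' = S k'
    · have h2 : netAt B k' S' = netAt B k' S := by
        unfold netAt
        congr 1
        refine List.map_congr_left fun l hl => ?_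
        unfold contr
        rw [Pool.Agent.Run7.h142.RT.fam_eq (i := f l.label.1) (hB l hl).1 h1]
      rw [h2]
      exact hrel
    · by_cases h2 : S' k' = cj (S k')
      · have h3 : netAt B k' S' = - netAt B k' S := by
          unfold netAt
          rw [List.sum_neg, List.map_map]
          congr 1
          refine List.map_congr_left fun l hl => ?_
          change contr k' S' l.label = - contr k' S l.label
          unfold contr
          rw [Pool.Agent.Run7.h142.RT.fam_cj (i := f l.label.1) (hB l hl).1 h2, dz_cj]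
          split_ifs
          · rw [Pi.single_neg]
          · rw [neg_zero]
        rw [h3]
        exact neg_mem hrel
      · have h3 : netAt B k' S' = 0 := by
          unfold netAt
          refine List.sum_eq_zero fun z hz => ?_
          obtain ⟨l, hl, rfl⟩ := List.mem_map.1 hz
          refine contr_not fun h3 => ?_
          have hne1 : S' (f l.i) ≠ S (f l.i) := fun h4 =>
            h1 (Pool.Agent.Run7.h142.RT.fam_eq (S := S) (S' := S') (hB l hl).1.symm h4)
          have hne2 : S' (f l.i) ≠ cj (S (f l.i)) := fun h4 =>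
            h2 (Pool.Agent.Run7.h142.RT.fam_cj (S := S) (S' := S') (hB l hl).1.symm h4)
          rcases h3.2 with h4 | h4 <;> rcases (hB l hl).2 with h5 | h5
          · exact hne1 (by rw [← h4, h5])
          · exact hne2 (by rw [← h4, h5])
          · exact hne2 (by rw [← h5, h4, cj_cj])
          · exact hne1 (by rw [← cj_cj (S' (f l.i)), ← h4, h5, cj_cj])
        rw [h3]
        exact zero_mem _
  · have h3 : netAt B k' S' = 0 := by
      unfold netAt
      refine List.sum_eq_zero fun z hz => ?_
      obtain ⟨l, hl, rfl⟩ := List.mem_map.1 hz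
      refine contr_not fun h3 => hk ?_
      rw [← h3.1, (hB l hl).1]
    rw [h3]
    exact zero_mem _

/-- **The induction over the group of the relations.** -/
theorem lat_induction {B : κ → Set (Fin s → ℤ)} {P : List (Σ j, (E (f j) →+* W.K)) → Prop}
    (hnil : P []) (happ : ∀ l l', P l → P l' → P (l ++ l'))
    (hnet : ∀ l l', netL l = netL l' → P l → P l')
    (hgen : ∀ k, ∀ c ∈ B k, ∀ S, P (lat f S c)) {k : κ} {c : Fin s → ℤ}
    (hc : c ∈ AddSubgroup.closure (B k)) : ∀ S, P (lat f S c) := by
  induction hc using AddSubgroup.closure_induction with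
  | mem c hc => exact hgen k c hc
  | zero => exact fun S => hnet _ _ (netL_lat_zero S).symm hnil
  | add a b _ _ ha hb =>
    exact fun S => hnet _ _ (netL_lat_add S a b).symm (happ _ _ (ha S) (hb S))
  | neg a _ ha => exact fun S => hnet _ _ (netL_lat_neg S a).symm (ha _)

/-- **The induction over the balanced words.** -/
theorem word_induction [IsAlgClosed W.K] {B : κ → Set (Fin s → ℤ)}
    (hB : ∀ k, AddSubgroup.closure (B k) = relations p α (degs Φ X e) k)
    {P : List (Σ j, (E (f j) →+* W.K)) → Prop}
    (hnil : P []) (happ : ∀ l l', P l → P l' → P (l ++ l'))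
    (hnet : ∀ l l', netL l = netL l' → P l → P l')
    (hgen : ∀ k, ∀ c ∈ B k, ∀ S, P (lat f S c)) :
    ∀ (m : ℕ) (L : List (LL Φ X d e α Z)), L.length ≤ m → IsBal L → P (L.map Lt.label) := by
  classical
  intro m
  induction m with
  | zero =>
    intro L hL _
    rw [List.length_eq_zero_iff.1 (Nat.le_zero.1 hL)]
    exact hnil
  | succ m ih =>
    intro L hL hbal
    rcases L with _ | ⟨a, L'⟩
    · exact hnil
    · generalize hL' : a :: L' = L at *
      have hne : ∀ k, Nonempty (E k →+* W.K) := fun k =>
        ⟨(IsAlgClosed.lift : E k →ₐ[ℚ] W.K).toRingHom⟩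
      let S : ∀ k, E k →+* W.K := Function.update (fun k => (hne k).some) (f a.i) a.σ
      have hS : S (f a.i) = a.σ := Function.update_self _ _ _
      let G : List (LL Φ X d e α Z) := L.filter fun l => decide (f l.i = f a.i ∧ Fits S l)
      have hGmem : ∀ l ∈ G, f l.i = f a.i ∧ Fits S l := fun l hl => by
        have := (List.mem_filter.1 hl).2
        simpa using this
      have haG : a ∈ G := by
        refine List.mem_filter.2 ⟨?_, ?_⟩
        · rw [← hL']
          exact List.mem_cons_self
        · rw [decide_eq_true_eq]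
          exact ⟨rfl, Or.inl hS.symm⟩
      have hG1 : netAt G (f a.i) S = netAt L (f a.i) S := netAt_filter L (f a.i) S
      have hGrel : netAt G (f a.i) S ∈ relations p α (degs Φ X e) (f a.i) := by
        rw [hG1]
        exact hbal (f a.i) S
      have hGP : P (G.map Lt.label) := by
        have hcl : netAt G (f a.i) S ∈ AddSubgroup.closure (B (f a.i)) := by
          rw [hB]
          exact hGrel
        have h1 := lat_induction hnil happ hnet hgen hcl S
        refine hnet _ _ ?_ h1
        funext x
        rw [netL_lat]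
        exact (netL_block G hGmem x).symm
      obtain ⟨R, hR⟩ := (List.filter_sublist (l := L)
        (p := fun l => decide (f l.i = f a.i ∧ Fits S l))).exists_perm_append
      have hRP : P (R.map Lt.label) := by
        refine ih R ?_ ?_
        · have h1 := hR.length_eq
          rw [List.length_append] at h1
          have h2 : 0 < G.length := List.length_pos_of_mem haG
          change L.length = G.length + R.length at h1
          omega
        · have hGbal : IsBal G := bal_block hGmem hGrel
          intro k' S'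
          have h1 : netAt L k' S' = netAt G k' S' + netAt R k' S' := by
            rw [← netAt_append]
            exact netAt_perm hR k' S'
          have h2 := sub_mem (hbal k' S') (hGbal k' S')
          rwa [h1, add_sub_cancel_left] at h2
      refine hnet (G.map Lt.label ++ R.map Lt.label) _ ?_ (happ _ _ hGP hRP)
      rw [← List.map_append]
      exact (netL_perm (hR.map _)).symm

end net

section alg

variable [IsAlgClosed W.K]

theorem rootL_lat (hα : IsPNumber p α d) (hpos : ∀ j, 0 < e j) {k : κ} {c : Fin s → ℤ}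
    (hc : c ∈ relations p α (degs Φ X e) k) (S : ∀ k, E k →+* W.K) :
    RootL Φ X e α (lat f S c) := by
  intro Z t M
  obtain ⟨N, hN, h1⟩ := Pool.Agent.Run7.h142.RT.root_of_relation (p := p)
    ⟨hα.unitary, hα.unit⟩ S (expo Φ X e Z t M)
    ((listOf c).map fun j => (j, decide (0 ≤ c j))) (fun T => by
      rw [List.map_map]
      have h2 := hc.2 T
      have h3 : (fun x : Fin s × Bool => Pool.Agent.Run7.h142.RT.sgn x.2 *
          ((expo Φ X e Z t M x.1 : ℝ) * Real.log ‖T (f x.1) (α x.1)‖)) ∘
          (fun j => (j, decide (0 ≤ c j))) = fun j =>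
          Pool.Agent.Run7.h142.RT.sgn (decide (0 ≤ c j)) *
          (((2 * (t * Φ.e Z) * M * ∏ i, (e i * Φ.e (X i)) : ℕ) : ℝ) *
            slope p α (degs Φ X e) j T) := by
        funext j
        change _ * _ = _ * _
        congr 1
        have h4 : ((expo Φ X e Z t M j : ℕ) : ℝ) * ((degs Φ X e j : ℕ) : ℝ) =
            ((2 * (t * Φ.e Z) * M * ∏ i, (e i * Φ.e (X i)) : ℕ) : ℝ) := by
          rw [← Nat.cast_mul, expo_mul]
        have h5 : ((degs Φ X e j : ℕ) : ℝ) ≠ 0 := Nat.cast_ne_zero.2 (degs_pos hpos j).ne'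
        rw [← h4]
        unfold slope
        field_simp
      rw [h3, sum_listOf']
      have h6 : ∀ j, (c j).natAbs • (Pool.Agent.Run7.h142.RT.sgn (decide (0 ≤ c j)) *
          (((2 * (t * Φ.e Z) * M * ∏ i, (e i * Φ.e (X i)) : ℕ) : ℝ) *
            slope p α (degs Φ X e) j T)) =
          ((2 * (t * Φ.e Z) * M * ∏ i, (e i * Φ.e (X i)) : ℕ) : ℝ) *
            ((c j : ℝ) * slope p α (degs Φ X e) j T) := by
        intro j
        have h7 : (((c j).natAbs : ℕ) : ℝ) * Pool.Agent.Run7.h142.RT.sgn (decide (0 ≤ c j)) =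
            (c j : ℝ) := by
          unfold Pool.Agent.Run7.h142.RT.sgn
          have h8 : (((c j).natAbs : ℕ) : ℝ) = |(c j : ℝ)| := by
            rw [← Int.cast_abs, ← Int.natCast_natAbs]
            rfl
          by_cases h : 0 ≤ c j
          · rw [if_pos (by simpa using h), mul_one, h8, abs_of_nonneg (by exact_mod_cast h)]
          · rw [if_neg (by simpa using h), h8, abs_of_neg (by exact_mod_cast not_le.1 h)]
            ring
        rw [nsmul_eq_mul, ← mul_assoc, h7]
        ring
      rw [Finset.sum_congr rfl fun j _ => h6 j, ← Finset.mul_sum, h2, mul_zero])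
  refine ⟨N, hN, ?_⟩
  have h2 : lpr α (expo Φ X e Z t M) (lat f S c) = Pool.Agent.Run7.h142.RT.lprod α S
      (expo Φ X e Z t M) ((listOf c).map fun j => (j, decide (0 ≤ c j))) := by
    unfold lpr lat Pool.Agent.Run7.h142.RT.lprod
    rw [List.map_map, List.map_map]
    congr 1
    refine List.map_congr_left fun j _ => ?_
    unfold Pool.Agent.Run7.h142.RT.lval
    change (if 0 ≤ c j then S (f j) else cj (S (f j))) (α j) ^ _ =
      (if decide (0 ≤ c j) = true then S (f j) (α j) else cj (S (f j)) (α j)) ^ _
    by_cases h : 0 ≤ c j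
    · rw [if_pos h, if_pos (by simpa using h)]
    · rw [if_neg h, if_neg (by simpa using h)]
  rw [h2, h1]

theorem alg_of_lists (hpos : ∀ j, 0 < e j) {l : List (Σ j, (E (f j) →+* W.K))}
    (hl : Even (dg d l)) (hT : TateForList Φ X (l.map fun x => x.1) (dg d l / 2))
    (hroot : RootL Φ X e α l) : AlgL Φ X d e α l := by
  intro Z G h1
  obtain ⟨m, hm⟩ := hl
  have h2 : (G.map fun l => l.i) = l.map fun x => x.1 := by
    rw [show (G.map fun l => l.i) = (G.map Lt.label).map fun x => x.1 from
      map_labels G fun x => x.1, h1]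
  have h3 : (G.map fun l => d l.i).sum = dg d l := by
    rw [show (G.map fun l => d l.i) = (G.map Lt.label).map fun x => d x.1 from
      map_labels G fun x => d x.1, h1]
    rfl
  refine block_alg hpos G (m := m) (by rw [h3, hm]; ring) ?_ (by rw [h1]; exact hroot)
  rw [h2]
  rwa [show dg d l / 2 = m by omega] at hT

theorem lat_fst (S : ∀ k, E k →+* W.K) (c : Fin s → ℤ) :
    (lat f S c).map (fun x => x.1) = listOf c := by
  unfold lat
  rw [List.map_map]
  exact List.map_id _

variable [Fintype κ] {L' : IntermediateField ℚ Qb}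

/-- **Balanced words of even degree are algebraic.** -/
theorem bal_alg (hX : HaveWeilNumbers (K := fun j => E (f j)) Φ α X d e)
    (hα : IsPNumber p α d) (hE : NoRigidPairsOver E L') {B : κ → Set (Fin s → ℤ)}
    (hT : TateForGenerators Φ X d B)
    (hB : ∀ k, AddSubgroup.closure (B k) = relations p α (degs Φ X e) k)
    (L : List (LL Φ X d e α Z)) (hbal : IsBal L) (hev : Even (L.map fun l => d l.i).sum) :
    wval L ∈ algSpan W Z := by
  classical
  have hpair : ∀ x, AlgL Φ X d e α [x, br x] := fun x =>
    algL_pair hα.unitary hX.pos x (hT.pairs x.1)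
  have hrel : ∀ k, ∀ c ∈ B k, c ∈ relations p α (degs Φ X e) k := fun k c hc => by
    rw [← hB k]
    exact AddSubgroup.subset_closure hc
  have hodd : ∀ k k', ∀ c ∈ B k, ∀ c' ∈ B k', Odd (degOf d c) → Odd (degOf d c') →
      ∀ S S', AlgL Φ X d e α (lat f S c ++ lat f S' c') := by
    intro k k' c hc c' hc' h1 h2 S S'
    refine alg_of_lists hX.pos ?_ ?_ (rootL_append (rootL_lat hα hX.pos (hrel k c hc) S)
      (rootL_lat hα hX.pos (hrel k' c' hc') S'))
    · rw [dg_append, dg_lat, dg_lat]
      exact h1.add_odd h2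
    · rw [dg_append, dg_lat, dg_lat, List.map_append, lat_fst, lat_fst]
      exact hT.odd k k' c hc c' hc' h1 h2
  -- the auxiliary odd relation
  obtain ⟨o, ho1, ho2⟩ : ∃ o : List (Σ j, (E (f j) →+* W.K)),
      AlgL Φ X d e α (o.map br ++ o.map br) ∧
      ∀ k, ∀ c ∈ B k, Odd (degOf d c) → ∀ S, AlgL Φ X d e α (lat f S c ++ o) := by
    by_cases hex : ∃ k, ∃ c ∈ B k, Odd (degOf d c)
    · obtain ⟨k₀, c₀, h1, h2⟩ := hex
      have hne : ∀ k, Nonempty (E k →+* W.K) := fun k =>
        ⟨(IsAlgClosed.lift : E k →ₐ[ℚ] W.K).toRingHom⟩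
      let S₀ : ∀ k, E k →+* W.K := fun k => (hne k).some
      refine ⟨lat f S₀ c₀, ?_, fun k c hc hco S => hodd k k₀ c hc c₀ h1 hco h2 S S₀⟩
      refine algL_net hX hα hE hpair ?_
        (hodd k₀ k₀ c₀ h1 c₀ h1 h2 h2 (fun k => cj (S₀ k)) (fun k => cj (S₀ k)))
      have h3 : netL (lat f (fun k => cj (S₀ k)) c₀) = netL ((lat f S₀ c₀).map br) := by
        rw [netL_br, ← netL_lat_neg]
        funext x
        rw [Pi.neg_apply, netL_lat, netL_lat, Pi.neg_apply, neg_mul]
      rw [netL_append, netL_append, h3]
    · push Not at hex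
      exact ⟨[], algL_nil, fun k c hc hco => absurd hco (by
        rw [Nat.not_odd_iff_even]
        exact Nat.not_odd_iff_even.1 (hex k c hc))⟩
  let P : List (Σ j, (E (f j) →+* W.K)) → Prop := fun l =>
    (Even (dg d l) → AlgL Φ X d e α l) ∧ (Odd (dg d l) → AlgL Φ X d e α (l ++ o))
  have hnil : P [] := ⟨fun _ => algL_nil, fun h => absurd h (by
    change ¬ Odd 0
    exact Nat.not_odd_zero)⟩
  have hnet : ∀ l l', netL l = netL l' → P l → P l' := by
    intro l l' h1 h2
    have h3 : Even (dg d l + dg d l') := dg_parity h1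
    refine ⟨fun h4 => algL_net hX hα hE hpair h1 (h2.1 ?_), fun h4 => ?_⟩
    · exact (Nat.even_add.1 h3).2 h4
    · refine algL_net hX hα hE hpair (l := l ++ o) ?_ (h2.2 ?_)
      · rw [netL_append, netL_append, h1]
      · rw [← Nat.not_even_iff_odd] at h4 ⊢
        exact fun h5 => h4 ((Nat.even_add.1 h3).1 h5)
  have happ : ∀ l l', P l → P l' → P (l ++ l') := by
    intro l l' h1 h2
    rcases Nat.even_or_odd (dg d l) with h3 | h3 <;> rcases Nat.even_or_odd (dg d l') with h4 | h4
    · refine ⟨fun _ => algL_append (h1.1 h3) (h2.1 h4), fun h5 => ?_⟩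
      rw [dg_append] at h5
      exact absurd (h3.add h4) (Nat.not_even_iff_odd.2 h5)
    · refine ⟨fun h5 => ?_, fun _ => ?_⟩
      · rw [dg_append] at h5
        exact absurd h5 (Nat.not_even_iff_odd.2 (h3.add_odd h4))
      · rw [List.append_assoc]
        exact algL_append (h1.1 h3) (h2.2 h4)
    · refine ⟨fun h5 => ?_, fun _ => ?_⟩
      · rw [dg_append] at h5
        exact absurd h5 (Nat.not_even_iff_odd.2 (h3.add_even h4))
      · refine algL_net hX hα hE hpair (l := (l ++ o) ++ l') ?_
          (algL_append (h1.2 h3) (h2.1 h4))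
        simp only [netL_append]
        abel
    · refine ⟨fun _ => ?_, fun h5 => ?_⟩
      · refine algL_net hX hα hE hpair
          (l := ((l ++ o) ++ (l' ++ o)) ++ (o.map br ++ o.map br)) ?_
          (algL_append (algL_append (h1.2 h3) (h2.2 h4)) ho1)
        simp only [netL_append, netL_br]
        abel
      · rw [dg_append] at h5
        exact absurd (h3.add_odd h4) (Nat.not_even_iff_odd.2 h5)
  have hgen : ∀ k, ∀ c ∈ B k, ∀ S, P (lat f S c) := by
    intro k c hc S
    refine ⟨fun h1 => ?_, fun h1 => ?_⟩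
    · refine alg_of_lists hX.pos h1 ?_ (rootL_lat hα hX.pos (hrel k c hc) S)
      rw [dg_lat] at h1 ⊢
      rw [lat_fst]
      exact hT.even k c hc h1
    · rw [dg_lat] at h1
      exact ho2 k c hc h1 S
  have h1 := word_induction (Φ := Φ) (X := X) (d := d) (e := e) (α := α) (Z := Z) (B := B) hB
    (P := P) hnil happ hnet hgen L.length L le_rfl hbal
  refine h1.1 ?_ Z L rfl
  unfold dg
  rw [← map_labels L fun x => d x.1]
  exact hev

/-- the degrees of the balanced words if all generators are even -/
theorem bal_even {B : κ → Set (Fin s → ℤ)}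
    (hB : ∀ k, AddSubgroup.closure (B k) = relations p α (degs Φ X e) k)
    (hev : ∀ k, ∀ c ∈ B k, Even (degOf d c))
    (L : List (LL Φ X d e α Z)) (hbal : IsBal L) : Even (L.map fun l => d l.i).sum := by
  have h1 := word_induction (Φ := Φ) (X := X) (d := d) (e := e) (α := α) (Z := Z) (B := B) hB
    (P := fun l => Even (dg d l)) Even.zero
    (fun l l' h h' => by
      rw [dg_append]
      exact h.add h')
    (fun l l' h h' => (Nat.even_add.1 (dg_parity (d := d) h)).1 h')
    (fun k c hc S => by
      rw [dg_lat]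
      exact hev k c hc) L.length L le_rfl hbal
  unfold dg at h1
  rwa [← map_labels L fun x => d x.1] at h1

end alg

end Pool.Agent.Run7.h142.GT
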